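import Pool.Agent.S04901

set_option autoImplicit false

noncomputable section

open Set Function Topology Filter
open Pool.Agent.S04901.CK

namespace Pool.Agent.W689.PF

/-- the action of a table on cylinders -/
theorem exists_coef (c : Tb) : ∃ N : ℕ, ∀ v : Wd, N ≤ v.length → ∃ (s : Finset Wd) (α : Wd → ℝ),
    ∀ (h : CD) (z : Dl), opD c h (app v z) = ∑ w ∈ s, α w * h (app w z) := by
  classical
  refine ⟨c.support.sup (fun p => p.1.length), fun v hv => ?_⟩
  have hle : ∀ p ∈ c.support, p.1.length ≤ v.length := fun p hp =>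
    (Finset.le_sup (f := fun p : List (Fin 3) × List (Fin 3) => p.1.length) hp).trans hv
  let g : List (Fin 3) × List (Fin 3) → Wd := fun p => p.2 ++ v.drop p.1.length
  let S := c.support.filter (fun p => v.take p.1.length = p.1)
  refine ⟨S.image g, fun w => ∑ p ∈ S with g p = w, c p, fun h z => ?_⟩
  have h1 : ∑ w ∈ S.image g, (∑ p ∈ S with g p = w, c p) * h (app w z) =
      ∑ w ∈ S.image g, ∑ p ∈ S with g p = w, c p * h (app (g p) z) := by
    refine Finset.sum_congr rfl fun w _ => ?_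
    rw [Finset.sum_mul]
    refine Finset.sum_congr rfl fun p hp => ?_
    rw [(Finset.mem_filter.1 hp).2]
  rw [h1, Finset.sum_fiberwise_of_maps_to (fun p hp => Finset.mem_image_of_mem g hp)]
  rw [PWL.h441_op, Finset.sum_filter]
  unfold Finsupp.sum
  refine Finset.sum_congr rfl fun p hp => ?_
  beta_reduce
  rw [PWL.h441_push _ _ _ _ (hle p hp)]
  split_ifs
  · rw [pullW_apply, ← app_append]
  · simp

/-- the suffix -/
def sfx (n : ℕ) : Wd := List.replicate n 0 ++ [1]

theorem app_sfx_lt (n i : ℕ) (h : i < n) (z : Dl) : app (sfx n) z i = 0 := by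
  rw [sfx, app_append, PYS.app_lt _ _ _ (by simpa using h)]
  simp

theorem app_sfx_self (n : ℕ) (z : Dl) : app (sfx n) z n = 1 := by
  have h := PYS.app_len_add (List.replicate n (0 : Fin 3)) (app [1] z) 0
  rw [List.length_replicate, Nat.add_zero] at h
  rw [sfx, app_append, h]
  rfl

theorem sfx_inj_aux (n : ℕ) (w w' : Wd) (hw' : w'.length ≤ n)
    (hle : w.length ≤ w'.length) (z z' : Dl)
    (h : app (w ++ sfx n) z = app (w' ++ sfx n) z') : w = w' := by
  rw [app_append, app_append] at h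
  have h1 := congrFun h (w.length + n)
  rw [PYS.app_len_add, app_sfx_self] at h1
  have e : w.length + n = w'.length + (w.length + n - w'.length) := by omega
  rw [e, PYS.app_len_add] at h1
  rcases eq_or_lt_of_le hle with hl | hl
  · refine List.ext_getElem hl fun i hi hi' => ?_
    have h2 := congrFun h i
    rw [PYS.app_lt _ _ _ hi, PYS.app_lt _ _ _ hi'] at h2
    exact h2
  · rw [app_sfx_lt n _ (by omega)] at h1
    exact absurd h1 (by decide)

theorem sfx_inj (n : ℕ) (w w' : Wd) (hw : w.length ≤ n) (hw' : w'.length ≤ n) (z z' : Dl)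
    (h : app (w ++ sfx n) z = app (w' ++ sfx n) z') : w = w' := by
  rcases le_total w.length w'.length with hl | hl
  · exact sfx_inj_aux n w w' hw' hl z z' h
  · exact (sfx_inj_aux n w' w hw hl z' z h.symm).symm

theorem pushW_self (a : Wd) (h : CD) (z : Dl) : pushW a h (app a z) = h z := by
  rw [PTA.pushW_app a a h z rfl, if_pos rfl]

theorem pushW_ne (a : Wd) (h : CD) (x : Dl) (hx : ∀ z, x ≠ app a z) : pushW a h x = 0 := by
  obtain ⟨v, z, hv, rfl⟩ := PKE.app_split a.length x
  rw [PTA.pushW_app a v h z hv.symm, if_neg]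
  rintro rfl
  exact hx z rfl

/-- the table with prescribed values on incomparable cylinders -/
def ytab (s : Finset Wd) (n : ℕ) (β : Wd → ℝ) : Tb :=
  ∑ w ∈ s, Finsupp.single (w ++ sfx n, []) (β w)

theorem ytab_apply (s : Finset Wd) (n : ℕ) (β : Wd → ℝ) (h : CD) (x : Dl) :
    opD (ytab s n β) h x = ∑ w ∈ s, β w * pushW (w ++ sfx n) h x := by
  unfold ytab
  rw [PTA.opD_sum, _root_.sum_apply, ContinuousMap.coe_sum, Finset.sum_apply]
  refine Finset.sum_congr rfl fun w _ => ?_
  rw [PTA.opD_single]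
  rfl

theorem ytab_cyl (s : Finset Wd) (n : ℕ) (hs : ∀ w ∈ s, w.length ≤ n) (β : Wd → ℝ) (h : CD)
    (w : Wd) (hw : w ∈ s) (z : Dl) :
    opD (ytab s n β) h (app (w ++ sfx n) z) = β w * h z := by
  rw [ytab_apply, Finset.sum_eq_single w]
  · rw [pushW_self]
  · intro w' hw' hne
    rw [pushW_ne, mul_zero]
    intro z' he
    exact hne (sfx_inj n w' w (hs w' hw') (hs w hw) z' z he.symm)
  · intro h0; exact absurd hw h0

theorem ytab_norm (s : Finset Wd) (n : ℕ) (hs : ∀ w ∈ s, w.length ≤ n) (β : Wd → ℝ) (B : ℝ)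
    (hB : 0 ≤ B) (hβ : ∀ w ∈ s, |β w| ≤ B) : ‖opD (ytab s n β)‖ ≤ B := by
  refine ContinuousLinearMap.opNorm_le_bound _ hB fun h => ?_
  refine (ContinuousMap.norm_le _ (by positivity)).2 fun x => ?_
  by_cases hx : ∃ w ∈ s, ∃ z, x = app (w ++ sfx n) z
  · obtain ⟨w, hw, z, rfl⟩ := hx
    rw [ytab_cyl s n hs β h w hw z, norm_mul]
    exact mul_le_mul (hβ w hw) (h.norm_coe_le_norm z) (norm_nonneg _) hB
  · push Not at hx
    rw [ytab_apply, Finset.sum_eq_zero]
    · rw [norm_zero]; positivity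
    · intro w hw
      rw [pushW_ne _ _ _ (hx w hw), mul_zero]

theorem pull_tab (v : Wd) (h : CD) (z : Dl) :
    opD (Finsupp.single ([], v) 1) h z = h (app v z) := by
  rw [PTA.opD_single, one_smul, ← pullW_apply]
  rfl

theorem leavitt (c : Tb) (hc : opD c ≠ 0) : ∃ x y : Tb,
    (∀ h, opD x (opD c (opD y h)) = h) ∧ ‖opD x‖ ≤ 1 ∧ ‖opD y‖ ≤ 1 / ‖opD c‖ := by
  classical
  obtain ⟨N, hN⟩ := exists_coef c
  have hN' : ∀ v : Wd, ∃ (s : Finset Wd) (α : Wd → ℝ), v.length = N →
      ∀ (h : CD) (z : Dl), opD c h (app v z) = ∑ w ∈ s, α w * h (app w z) := by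
    intro v
    by_cases hv : v.length = N
    · obtain ⟨s, α, h⟩ := hN v hv.ge
      exact ⟨s, α, fun _ => h⟩
    · exact ⟨∅, fun _ => 0, fun h => absurd h hv⟩
  choose s α hα using hN'
  have hfin : {l : List (Fin 3) | l.length = N}.Finite := List.finite_length_eq (Fin 3) N
  have hne : hfin.toFinset.Nonempty := ⟨List.replicate N 0, by simp⟩
  obtain ⟨v0, hv0, hmax⟩ := hfin.toFinset.exists_max_image (fun v => ∑ w ∈ s v, |α v w|) hne
  have hv0' : v0.length = N := by simpa using hv0
  obtain ⟨A, hA⟩ : ∃ A : ℝ, A = ∑ w ∈ s v0, |α v0 w| := ⟨_, rfl⟩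
  have hA0 : 0 ≤ A := by rw [hA]; exact Finset.sum_nonneg fun w _ => abs_nonneg _
  have hcA : ‖opD c‖ ≤ A := by
    refine ContinuousLinearMap.opNorm_le_bound _ hA0 fun h => ?_
    refine (ContinuousMap.norm_le _ (by positivity)).2 fun x => ?_
    obtain ⟨v, z, hv, rfl⟩ := PKE.app_split N x
    rw [hα v hv h z, Real.norm_eq_abs]
    calc |∑ w ∈ s v, α v w * h (app w z)| ≤ ∑ w ∈ s v, |α v w * h (app w z)| :=
          Finset.abs_sum_le_sum_abs _ _
      _ ≤ ∑ w ∈ s v, |α v w| * ‖h‖ := by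
          refine Finset.sum_le_sum fun w _ => ?_
          rw [abs_mul]
          exact mul_le_mul_of_nonneg_left (h.norm_coe_le_norm _) (abs_nonneg _)
      _ = (∑ w ∈ s v, |α v w|) * ‖h‖ := by rw [Finset.sum_mul]
      _ ≤ A * ‖h‖ := by
          refine mul_le_mul_of_nonneg_right ?_ (norm_nonneg _)
          rw [hA]
          exact hmax v (by simpa using hv)
  have hcpos : 0 < ‖opD c‖ := by
    rcases (norm_nonneg (opD c)).eq_or_lt with h | h
    · exfalso
      apply hc
      apply ContinuousLinearMap.ext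
      intro k
      have h2 := (opD c).le_opNorm k
      rw [← h, zero_mul] at h2
      exact norm_le_zero_iff.1 h2
    · exact h
  have hApos : 0 < A := lt_of_lt_of_le hcpos hcA
  obtain ⟨n, hn⟩ : ∃ n, ∀ w ∈ s v0, w.length ≤ n :=
    ⟨(s v0).sup List.length, fun w hw => Finset.le_sup (f := List.length) hw⟩
  let β : Wd → ℝ := fun w => (SignType.sign (α v0 w) : ℝ) / A
  have hβ : ∀ w ∈ s v0, |β w| ≤ 1 / A := by
    intro w _
    simp only [β]
    rw [abs_div, abs_of_pos hApos]
    gcongr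
    rcases lt_trichotomy (α v0 w) 0 with h | h | h
    · simp [sign_neg h]
    · simp [h]
    · simp [sign_pos h]
  refine ⟨Finsupp.single ([], v0 ++ sfx n) 1, ytab (s v0) n β, fun h => ?_, ?_, ?_⟩
  · ext z
    rw [pull_tab, app_append, hα v0 hv0']
    have h1 : ∀ w ∈ s v0, α v0 w * opD (ytab (s v0) n β) h (app w (app (sfx n) z)) =
        (|α v0 w| / A) * h z := by
      intro w hw
      rw [← app_append, ytab_cyl (s v0) n hn β h w hw z]
      simp only [β]
      have : α v0 w * (SignType.sign (α v0 w) : ℝ) = |α v0 w| := self_mul_sign _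
      rw [← this]
      ring
    rw [Finset.sum_congr rfl h1, ← Finset.sum_mul, ← Finset.sum_div, ← hA, div_self hApos.ne',
      one_mul]
  · refine ContinuousLinearMap.opNorm_le_bound _ zero_le_one fun h => ?_
    rw [one_mul]
    refine (ContinuousMap.norm_le _ (norm_nonneg _)).2 fun z => ?_
    rw [pull_tab]
    exact h.norm_coe_le_norm _
  · refine (ytab_norm (s v0) n hn β (1 / A) (by positivity) hβ).trans ?_
    exact one_div_le_one_div_of_le hcpos hcA

end Pool.Agent.W689.PF
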