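import Pool.Agent.S04901

set_option autoImplicit false

noncomputable section

open Set Function Topology Filter
open Pool.Agent.S04901.CK

namespace Pool.Agent.W689.PF

/-- averages of a function on sequences over the first `n` digits -/
def bt : ℕ → (ℕ → ℝ) → CD → ℝ
  | 0, _, h => h (fun _ => 0)
  | n + 1, p, h => (1 - p 0) * bt n (fun i => p (i + 1)) (pullC 0 h) +
      p 0 * bt n (fun i => p (i + 1)) (pullC 1 h)

theorem bt_add (n : ℕ) : ∀ (p : ℕ → ℝ) (h h' : CD), bt n p (h + h') = bt n p h + bt n p h' := by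
  induction n with
  | zero => intro p h h'; rfl
  | succ n ih =>
    intro p h h'
    simp only [bt, map_add, ih]
    ring

theorem bt_smul (n : ℕ) : ∀ (p : ℕ → ℝ) (r : ℝ) (h : CD), bt n p (r • h) = r * bt n p h := by
  induction n with
  | zero => intro p r h; rfl
  | succ n ih =>
    intro p r h
    simp only [bt, map_smul, ih]
    ring

theorem bt_cont {K : Type} [TopologicalSpace K] (n : ℕ) : ∀ (φ : ℕ → C(K, ℝ)) (h : CD),
    Continuous fun t => bt n (fun i => φ i t) h := by
  induction n with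
  | zero => intro φ h; exact continuous_const
  | succ n ih =>
    intro φ h
    have h0 := ih (fun i => φ (i + 1)) (pullC 0 h)
    have h1 := ih (fun i => φ (i + 1)) (pullC 1 h)
    have h2 := (φ 0).continuous
    simp only [bt]
    exact ((continuous_const.sub h2).mul h0).add (h2.mul h1)

theorem convex_near {p a b c ε : ℝ} (h0 : 0 ≤ p) (h1 : p ≤ 1) (ha : p < 1 → |a - c| ≤ ε)
    (hb : 0 < p → |b - c| ≤ ε) : |(1 - p) * a + p * b - c| ≤ ε := by
  rcases eq_or_lt_of_le h0 with h | h
  · subst h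
    have := ha (by norm_num)
    simpa using this
  rcases eq_or_lt_of_le h1 with h' | h'
  · subst h'
    have := hb (by norm_num)
    simpa using this
  have e : (1 - p) * a + p * b - c = (1 - p) * (a - c) + p * (b - c) := by ring
  rw [e]
  have h3 := ha h'
  have h4 := hb h
  rw [abs_le] at h3 h4 ⊢
  constructor <;> nlinarith [h3.1, h3.2, h4.1, h4.2]

theorem bt_near (n : ℕ) : ∀ (p : ℕ → ℝ) (h : CD) (c ε : ℝ), (∀ i, 0 ≤ p i) → (∀ i, p i ≤ 1) →
    (∀ w : Wd, w.length = n → ∀ y y', |h (app w y) - h (app w y')| ≤ ε) →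
    (∀ y : Dl, (∀ i, (y i = 0 ∧ p i < 1) ∨ (y i = 1 ∧ 0 < p i)) → h y = c) →
    |bt n p h - c| ≤ ε := by
  induction n with
  | zero =>
    intro p h c ε h0 h1 hosc hc
    have hex : ∃ y : Dl, ∀ i, (y i = 0 ∧ p i < 1) ∨ (y i = 1 ∧ 0 < p i) := by
      refine ⟨fun i => if p i < 1 then 0 else 1, fun i => ?_⟩
      by_cases hp : p i < 1
      · left; simp [hp]
      · right; simp [hp]; linarith
    obtain ⟨y, hy⟩ := hex
    have := hosc [] rfl (fun _ => 0) y
    rw [app_nil, app_nil, hc y hy] at this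
    exact this
  | succ n ih =>
    intro p h c ε h0 h1 hosc hc
    simp only [bt]
    refine convex_near (h0 0) (h1 0) (fun hp => ?_) (fun hp => ?_)
    · refine ih _ _ c ε (fun i => h0 _) (fun i => h1 _) ?_ ?_
      · intro w hw y y'
        exact hosc (0 :: w) (by simp [hw]) y y'
      · intro y hy
        refine hc (cons 0 y) fun i => ?_
        cases i with
        | zero => exact Or.inl ⟨rfl, hp⟩
        | succ i => exact hy i
    · refine ih _ _ c ε (fun i => h0 _) (fun i => h1 _) ?_ ?_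
      · intro w hw y y'
        exact hosc (1 :: w) (by simp [hw]) y y'
      · intro y hy
        refine hc (cons 1 y) fun i => ?_
        cases i with
        | zero => exact Or.inr ⟨rfl, hp⟩
        | succ i => exact hy i

theorem bt_avg (n : ℕ) : ∀ (p : ℕ → ℝ) (h : CD) (c ε : ℝ), (∀ i, 0 ≤ p i) → (∀ i, p i ≤ 1) →
    (∀ y, |h y - c| ≤ ε) → |bt n p h - c| ≤ ε := by
  induction n with
  | zero => intro p h c ε _ _ H; exact H _
  | succ n ih =>
    intro p h c ε h0 h1 H
    simp only [bt]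
    exact convex_near (h0 0) (h1 0)
      (fun _ => ih _ _ c ε (fun i => h0 _) (fun i => h1 _) (fun y => H _))
      (fun _ => ih _ _ c ε (fun i => h0 _) (fun i => h1 _) (fun y => H _))

theorem bt_cauchy (n : ℕ) : ∀ (m : ℕ) (p : ℕ → ℝ) (h : CD) (ε : ℝ), (∀ i, 0 ≤ p i) →
    (∀ i, p i ≤ 1) → n ≤ m → (∀ w : Wd, w.length = n → ∀ y y', |h (app w y) - h (app w y')| ≤ ε) →
    |bt m p h - bt n p h| ≤ ε := by
  induction n with
  | zero =>
    intro m p h ε h0 h1 _ H
    exact bt_avg m p h _ ε h0 h1 (fun y => H [] rfl y _)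
  | succ n ih =>
    intro m p h ε h0 h1 hm H
    obtain ⟨m, rfl⟩ : ∃ m', m = m' + 1 := ⟨m - 1, by omega⟩
    simp only [bt]
    have i0 := ih m (fun i => p (i + 1)) (pullC 0 h) ε (fun i => h0 _) (fun i => h1 _) (by omega)
      (fun w hw y y' => H (0 :: w) (by simp [hw]) y y')
    have i1 := ih m (fun i => p (i + 1)) (pullC 1 h) ε (fun i => h0 _) (fun i => h1 _) (by omega)
      (fun w hw y y' => H (1 :: w) (by simp [hw]) y y')
    have h2 := h0 0
    have h3 := h1 0
    rw [abs_le] at i0 i1 ⊢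
    constructor <;> nlinarith [i0.1, i0.2, i1.1, i1.2]

/-- uniform continuity -/
theorem exists_osc (h : CD) (ε : ℝ) (hε : 0 < ε) : ∃ N : ℕ, ∀ w : Wd, N ≤ w.length → ∀ y y',
    |h (app w y) - h (app w y')| ≤ ε := by
  have hU : ∀ y : Dl, ∃ n, ∀ z ∈ PiNat.cylinder y n, |h z - h y| < ε / 2 := by
    intro y
    have ho : IsOpen {z : Dl | |h z - h y| < ε / 2} :=
      isOpen_lt ((h.continuous.sub continuous_const).abs) continuous_const
    have hy : y ∈ {z : Dl | |h z - h y| < ε / 2} := by simp [hε]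
    obtain ⟨V, ⟨x, n, rfl⟩, hyV, hV⟩ :=
      (PiNat.isTopologicalBasis_cylinders (E := fun _ : ℕ => Fin 3)).exists_subset_of_mem_open hy ho
    refine ⟨n, fun z hz => hV ?_⟩
    rw [← PiNat.mem_cylinder_iff_eq.1 hyV]
    exact hz
  choose n hn using hU
  obtain ⟨t, ht⟩ := isCompact_univ.elim_nhds_subcover (fun y => PiNat.cylinder y (n y))
    (fun y _ => (PiNat.isOpen_cylinder _ y (n y)).mem_nhds (PiNat.self_mem_cylinder y (n y)))
  refine ⟨t.sup n, fun w hw y y' => ?_⟩
  obtain ⟨z, hz, hzw⟩ := mem_iUnion₂.1 (ht.2 (mem_univ (app w y)))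
  have hzw' : app w y' ∈ PiNat.cylinder z (n z) := by
    rw [PiNat.mem_cylinder_iff] at hzw ⊢
    intro i hi
    have hiw : i < w.length := lt_of_lt_of_le hi ((Finset.le_sup (f := n) hz).trans hw)
    rw [← hzw i hi, PYS.app_lt w y i hiw, PYS.app_lt w y' i hiw]
  have h1 := hn z _ hzw
  have h2 := hn z _ hzw'
  rw [abs_lt] at h1 h2
  rw [abs_le]
  constructor <;> linarith [h1.1, h1.2, h2.1, h2.2]

theorem exists_beta {K : Type} [TopologicalSpace K] [CompactSpace K] (φ : ℕ → C(K, ℝ))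
    (h0 : ∀ i t, 0 ≤ φ i t) (h1 : ∀ i t, φ i t ≤ 1) :
    ∃ β : CD →L[ℝ] C(K, ℝ), ∀ (h : CD) (t : K) (c : ℝ),
      (∀ y : Dl, (∀ i, (y i = 0 ∧ φ i t < 1) ∨ (y i = 1 ∧ 0 < φ i t)) → h y = c) → β h t = c := by
  let b : ℕ → CD → C(K, ℝ) := fun n h => ⟨fun t => bt n (fun i => φ i t) h, bt_cont n φ h⟩
  have hb : ∀ n h t, b n h t = bt n (fun i => φ i t) h := fun _ _ _ => rfl
  have hC : ∀ h, CauchySeq fun n => b n h := by
    intro h
    rw [Metric.cauchySeq_iff']
    intro ε hε
    obtain ⟨N, hN⟩ := exists_osc h (ε / 2) (half_pos hε)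
    refine ⟨N, fun m hm => ?_⟩
    rw [dist_eq_norm]
    refine lt_of_le_of_lt ?_ (half_lt_self hε)
    refine (ContinuousMap.norm_le _ (half_pos hε).le).2 fun t => ?_
    rw [ContinuousMap.sub_apply, Real.norm_eq_abs, hb, hb]
    exact bt_cauchy N m _ h _ (fun i => h0 i t) (fun i => h1 i t) hm
      (fun w hw y y' => hN w hw.ge y y')
  choose β hβ using fun h => cauchySeq_tendsto_of_complete (hC h)
  let βl : CD →ₗ[ℝ] C(K, ℝ) :=
    { toFun := β
      map_add' := fun h h' => by
        refine tendsto_nhds_unique (hβ (h + h')) ?_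
        refine ((hβ h).add (hβ h')).congr fun n => ?_
        ext t
        rw [ContinuousMap.add_apply, hb, hb, hb, bt_add]
      map_smul' := fun r h => by
        refine tendsto_nhds_unique (hβ (r • h)) ?_
        refine ((hβ h).const_smul r).congr fun n => ?_
        ext t
        rw [ContinuousMap.smul_apply, hb, hb, bt_smul, smul_eq_mul] }
  have hpt : ∀ h t, Tendsto (fun n => bt n (fun i => φ i t) h) atTop (𝓝 (β h t)) := by
    intro h t
    exact ((ContinuousEvalConst.continuous_eval_const t).tendsto _).comp (hβ h)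
  refine ⟨βl.mkContinuous 1 (fun h => ?_), fun h t c hc => ?_⟩
  · rw [one_mul]
    refine (ContinuousMap.norm_le _ (norm_nonneg _)).2 fun t => ?_
    have h2 : ∀ n, |bt n (fun i => φ i t) h| ≤ ‖h‖ := by
      intro n
      have := bt_avg n (fun i => φ i t) h 0 ‖h‖ (fun i => h0 i t) (fun i => h1 i t)
        (fun y => by rw [sub_zero]; exact h.norm_coe_le_norm y)
      rwa [sub_zero] at this
    exact le_of_tendsto' (hpt h t).abs h2
  · show β h t = c
    refine tendsto_nhds_unique (hpt h t) ?_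
    rw [Metric.tendsto_atTop]
    intro ε hε
    obtain ⟨N, hN⟩ := exists_osc h (ε / 2) (half_pos hε)
    refine ⟨N, fun m hm => ?_⟩
    rw [Real.dist_eq]
    refine lt_of_le_of_lt ?_ (half_lt_self hε)
    exact bt_near m _ h c _ (fun i => h0 i t) (fun i => h1 i t)
      (fun w hw y y' => hN w (by omega) y y') hc

theorem milutin {E K : Type} [NormedAddCommGroup E] [NormedSpace ℝ E] [TopologicalSpace K]
    [CompactSpace K] [T2Space K] (S : E →L[ℝ] C(K, ℝ))
    (hS : TopologicalSpace.IsSeparable (range S)) :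
    ∃ (α : E →L[ℝ] CD) (β : CD →L[ℝ] C(K, ℝ)), ∀ x, β (α x) = S x := by
  rcases isEmpty_or_nonempty K with hK | hK
  · refine ⟨0, 0, fun x => ?_⟩
    ext t
    exact (IsEmpty.false t).elim
  obtain ⟨c, hc, hSc⟩ := hS
  have hcne : c.Nonempty := by
    rw [← closure_nonempty_iff]
    exact ⟨S 0, hSc ⟨0, rfl⟩⟩
  obtain ⟨f, rfl⟩ := hc.exists_eq_range hcne
  have : Nonempty (ℕ × {p : ℚ × ℚ // p.1 < p.2}) := ⟨(0, ⟨(0, 1), by norm_num⟩)⟩
  obtain ⟨en, hen⟩ := exists_surjective_nat (ℕ × {p : ℚ × ℚ // p.1 < p.2})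
  let a : ℕ → ℝ := fun i => ((en i).2.1.1 : ℝ)
  let b : ℕ → ℝ := fun i => ((en i).2.1.2 : ℝ)
  let g : ℕ → C(K, ℝ) := fun i => f (en i).1
  have hab : ∀ i, a i < b i := fun i => by
    have := (en i).2.2
    show (((en i).2.1.1 : ℚ) : ℝ) < (((en i).2.1.2 : ℚ) : ℝ)
    exact_mod_cast this
  let φ : ℕ → C(K, ℝ) := fun i =>
    ⟨fun t => max 0 (min 1 ((g i t - a i) / (b i - a i))), by fun_prop⟩
  have hφ : ∀ i t, φ i t = max 0 (min 1 ((g i t - a i) / (b i - a i))) := fun _ _ => rfl
  have hφ0 : ∀ i t, 0 ≤ φ i t := fun i t => le_max_left _ _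
  have hφ1 : ∀ i t, φ i t ≤ 1 := fun i t => max_le zero_le_one (min_le_left _ _)
  have hφa : ∀ i t, 0 < φ i t → a i ≤ g i t := by
    intro i t h
    by_contra hlt
    push Not at hlt
    have h2 : (g i t - a i) / (b i - a i) ≤ 0 :=
      div_nonpos_of_nonpos_of_nonneg (by linarith) (by linarith [hab i])
    rw [hφ, lt_max_iff, lt_min_iff] at h
    rcases h with h | h
    · exact lt_irrefl _ h
    · linarith [h.2]
  have hφb : ∀ i t, φ i t < 1 → g i t ≤ b i := by
    intro i t h
    by_contra hlt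
    push Not at hlt
    have h2 : 1 ≤ (g i t - a i) / (b i - a i) := by
      rw [le_div_iff₀ (by linarith [hab i])]
      linarith
    rw [hφ, max_lt_iff, min_lt_iff] at h
    rcases h.2 with h | h
    · exact lt_irrefl _ h
    · linarith
  obtain ⟨β, hβ⟩ := exists_beta φ hφ0 hφ1
  let G : Set (Dl × K) := {p | ∀ i, (p.1 i = 0 ∧ g i p.2 ≤ b i) ∨ (p.1 i = 1 ∧ a i ≤ g i p.2)}
  have hG : IsClosed G := by
    have : G = ⋂ i, ({p : Dl × K | p.1 i = 0} ∩ {p : Dl × K | g i p.2 ≤ b i}) ∪
        ({p : Dl × K | p.1 i = 1} ∩ {p : Dl × K | a i ≤ g i p.2}) := by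
      ext p
      simp only [mem_iInter, mem_union, mem_inter_iff]
      rfl
    rw [this]
    refine isClosed_iInter fun i => ?_
    have hc1 : Continuous fun p : Dl × K => p.1 i := (continuous_apply i).comp continuous_fst
    have hc2 : Continuous fun p : Dl × K => g i p.2 := (g i).continuous.comp continuous_snd
    exact ((isClosed_eq hc1 continuous_const).inter (isClosed_le hc2 continuous_const)).union
      ((isClosed_eq hc1 continuous_const).inter (isClosed_le continuous_const hc2))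
  have hφG : ∀ t (y : Dl), (∀ i, (y i = 0 ∧ φ i t < 1) ∨ (y i = 1 ∧ 0 < φ i t)) → (y, t) ∈ G := by
    intro t y hy i
    rcases hy i with h | h
    · exact Or.inl ⟨h.1, hφb i t h.2⟩
    · exact Or.inr ⟨h.1, hφa i t h.2⟩
  have hG1' : ∀ y t t', (y, t) ∈ G → (y, t') ∈ G → ∀ m, ¬ f m t < f m t' := by
    intro y t t' h h' m hlt
    obtain ⟨p, hp1, hp2⟩ := exists_rat_btwn hlt
    obtain ⟨q, hq1, hq2⟩ := exists_rat_btwn hp2
    have hpq : p < q := by exact_mod_cast hq1
    obtain ⟨i, hi⟩ := hen (m, ⟨(p, q), hpq⟩)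
    have ea : a i = p := by simp only [a, hi]
    have eb : b i = q := by simp only [b, hi]
    have eg : g i = f m := by simp only [g, hi]
    rcases h' i with h1 | h1
    · have := h1.2
      rw [eb, eg] at this
      simp only at this
      linarith
    · rcases h i with h2 | h2
      · have e1 := h1.1
        have e2 := h2.1
        simp only at e1 e2
        rw [e1] at e2
        exact absurd e2 (by decide)
      · have := h2.2
        rw [ea, eg] at this
        simp only at this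
        linarith
  have hG1 : ∀ y t t', (y, t) ∈ G → (y, t') ∈ G → ∀ x, S x t = S x t' := by
    intro y t t' h h' x
    have hcl : IsClosed {k : C(K, ℝ) | k t = k t'} :=
      isClosed_eq (ContinuousEvalConst.continuous_eval_const t) (ContinuousEvalConst.continuous_eval_const t')
    have hsub : closure (range f) ⊆ {k : C(K, ℝ) | k t = k t'} := by
      refine closure_minimal ?_ hcl
      rintro _ ⟨m, rfl⟩
      exact le_antisymm (not_lt.1 (hG1' y t' t h' h m)) (not_lt.1 (hG1' y t t' h h' m))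
    exact hsub (hSc ⟨x, rfl⟩)
  have hGt : ∀ t, ∃ y, (y, t) ∈ G := by
    intro t
    refine ⟨fun i => if φ i t < 1 then 0 else 1, hφG t _ fun i => ?_⟩
    by_cases hp : φ i t < 1
    · left; simp [hp]
    · right; simp only [hp, if_false, true_and]; linarith
  let Z : Set Dl := Prod.fst '' G
  have hZc : IsClosed Z := (hG.isCompact.image continuous_fst).isClosed
  have hZne : Z.Nonempty := by
    obtain ⟨t⟩ := hK
    obtain ⟨y, hy⟩ := hGt t
    exact ⟨y, ⟨(y, t), hy, rfl⟩⟩
  obtain ⟨r, hr1, hr2, hr3⟩ := PiNat.exists_retraction_of_isClosed hZc hZne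
  have hpt : ∀ z : Z, ∃ t, ((z : Dl), t) ∈ G := by
    rintro ⟨z, ⟨⟨z', t⟩, h, rfl⟩⟩
    exact ⟨t, h⟩
  choose pt hpt using hpt
  have hrZ : ∀ y, r y ∈ Z := fun y => hr2 ▸ mem_range_self y
  have hcont : ∀ x, Continuous fun z : Z => S x (pt z) := by
    intro x
    let π : G → Z := fun p => ⟨p.1.1, ⟨p.1, p.2, rfl⟩⟩
    have hπc : Continuous π := by
      refine Continuous.subtype_mk ?_ _
      exact continuous_fst.comp continuous_subtype_val
    have hπs : Surjective π := by
      rintro ⟨z, ⟨p, h, rfl⟩⟩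
      exact ⟨⟨p, h⟩, rfl⟩
    have : CompactSpace G := isCompact_iff_compactSpace.1 hG.isCompact
    have hq := Topology.IsQuotientMap.of_surjective_continuous hπs hπc
    rw [hq.continuous_iff]
    have : ((fun z : Z => S x (pt z)) ∘ π) = fun p : G => S x p.1.2 := by
      funext p
      exact hG1 p.1.1 _ _ (hpt (π p)) p.2 x
    rw [this]
    exact (S x).continuous.comp (continuous_snd.comp continuous_subtype_val)
  let α0 : E →ₗ[ℝ] CD :=
    { toFun := fun x => ⟨fun y => S x (pt ⟨r y, hrZ y⟩),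
        (hcont x).comp (hr3.subtype_mk hrZ)⟩
      map_add' := fun x x' => by ext y; simp
      map_smul' := fun c x => by ext y; simp }
  have hα0 : ∀ x y, α0 x y = S x (pt ⟨r y, hrZ y⟩) := fun _ _ => rfl
  refine ⟨α0.mkContinuous ‖S‖ (fun x => ?_), β, fun x => ?_⟩
  · refine (ContinuousMap.norm_le _ (by positivity)).2 fun y => ?_
    rw [hα0]
    exact ((S x).norm_coe_le_norm _).trans (S.le_opNorm x)
  · ext t
    refine hβ _ t _ fun y hy => ?_
    have hyG := hφG t y hy
    have hyZ : y ∈ Z := ⟨(y, t), hyG, rfl⟩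
    show α0 x y = S x t
    rw [hα0]
    have e : (⟨r y, hrZ y⟩ : Z) = ⟨y, hyZ⟩ := Subtype.ext (hr1 y hyZ)
    rw [e]
    exact hG1 y _ _ (hpt ⟨y, hyZ⟩) hyG x

end Pool.Agent.W689.PF
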