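import Pool.Agent.W689.PF.Appr
import Pool.Agent.W689.PF.Milu
import Pool.Agent.W689.PF.Leav

set_option autoImplicit false

noncomputable section

open Set Function Topology Filter
open scoped Cardinal
open Pool.Agent.S04901.CK

namespace Pool.Agent.W689.PF

section sp
variable {X Y : Type} [NormedAddCommGroup X] [NormedAddCommGroup Y]

theorem Sp.add {R S : X → Y} {ε δ : ℝ} (h : Sp R ε) (h' : Sp S δ) :
    Sp (fun x => R x + S x) (ε + δ) := by
  obtain ⟨D, hD, H⟩ := h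
  obtain ⟨D', hD', H'⟩ := h'
  refine ⟨(fun p : Y × Y => p.1 + p.2) '' (D ×ˢ D'), (hD.prod hD').image _, fun x κ hκ => ?_⟩
  obtain ⟨d, hd, h1⟩ := H x (κ / 2) (half_pos hκ)
  obtain ⟨d', hd', h2⟩ := H' x (κ / 2) (half_pos hκ)
  refine ⟨d + d', ⟨(d, d'), ⟨hd, hd'⟩, rfl⟩, ?_⟩
  have e : R x + S x - (d + d') = (R x - d) + (S x - d') := by abel
  rw [e]
  refine (norm_add_le _ _).trans ?_
  linarith

theorem Sp.neg {R : X → Y} {ε : ℝ} (h : Sp R ε) : Sp (fun x => - R x) ε := by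
  obtain ⟨D, hD, H⟩ := h
  refine ⟨(fun p => -p) '' D, hD.image _, fun x κ hκ => ?_⟩
  obtain ⟨d, hd, h1⟩ := H x κ hκ
  refine ⟨-d, ⟨d, hd, rfl⟩, ?_⟩
  have e : - R x - (-d) = -(R x - d) := by abel
  rw [e, norm_neg]
  exact h1

theorem Sp.of_bdd {R : X → Y} {ε : ℝ} (h : ∀ x, ‖R x‖ ≤ ε * ‖x‖) : Sp R ε :=
  ⟨{0}, countable_singleton _, fun x κ hκ => ⟨0, rfl, by rw [sub_zero]; linarith [h x]⟩⟩

theorem Sp.congr {R S : X → Y} {ε : ℝ} (h : Sp R ε) (hRS : ∀ x, R x = S x) : Sp S ε := by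
  have : R = S := funext hRS
  rw [← this]; exact h

theorem Sp.mono {R : X → Y} {ε ε' : ℝ} (h : Sp R ε) (hε : ε ≤ ε') : Sp R ε' := by
  obtain ⟨D, hD, H⟩ := h
  refine ⟨D, hD, fun x κ hκ => ?_⟩
  obtain ⟨d, hd, h1⟩ := H x κ hκ
  refine ⟨d, hd, h1.trans ?_⟩
  have := mul_le_mul_of_nonneg_right hε (norm_nonneg x)
  linarith

theorem sep_of_Sp {R : X → Y} (h : ∀ ε > 0, Sp R ε) : TopologicalSpace.IsSeparable (range R) := by
  choose D hD H using fun n : ℕ => h (1 / ((n : ℝ) + 1)) (by positivity)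
  refine ⟨⋃ n, D n, countable_iUnion hD, ?_⟩
  rintro _ ⟨x, rfl⟩
  rw [Metric.mem_closure_iff]
  intro δ hδ
  obtain ⟨n, hn⟩ := exists_nat_one_div_lt (show 0 < δ / (2 * (‖x‖ + 1)) by positivity)
  obtain ⟨d, hd, h1⟩ := H n x (δ / 3) (by positivity)
  refine ⟨d, mem_iUnion.2 ⟨n, hd⟩, ?_⟩
  rw [dist_eq_norm]
  have h2 : 1 / ((n : ℝ) + 1) * ‖x‖ ≤ δ / 2 := by
    calc 1 / ((n : ℝ) + 1) * ‖x‖ ≤ δ / (2 * (‖x‖ + 1)) * (‖x‖ + 1) := by
          gcongr
          linarith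
      _ = δ / 2 := by field_simp
  linarith

theorem Sp_of_sep {R : X → Y} (h : TopologicalSpace.IsSeparable (range R)) : Sp R 0 := by
  obtain ⟨D, hD, H⟩ := h
  refine ⟨D, hD, fun x κ hκ => ?_⟩
  obtain ⟨d, hd, h1⟩ := Metric.mem_closure_iff.1 (H ⟨x, rfl⟩) κ hκ
  rw [dist_eq_norm] at h1
  exact ⟨d, hd, by linarith⟩

end sp

section clm
variable {V W : Type} [NormedAddCommGroup V] [NormedSpace ℝ V] [NormedAddCommGroup W]
  [NormedSpace ℝ W]

theorem clm_dist (f g : V →L[ℝ] W) : dist f g = ‖f - g‖ := dist_eq_norm f g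
theorem clm_zero : ‖(0 : V →L[ℝ] W)‖ = 0 := norm_zero
theorem clm_add (f g : V →L[ℝ] W) : ‖f + g‖ ≤ ‖f‖ + ‖g‖ := norm_add_le f g

end clm

section
variable {I : Type} (Φ : Fam I)

theorem lower_c (t : CD →L[ℝ] CD) (D : Set (XS Φ)) (hD : D.Countable) (C : ℝ) (hC : 0 ≤ C)
    (H : ∀ k : XS Φ, ∀ κ > 0, ∃ d ∈ D, ‖hat t (k : BB) - (d : BB)‖ ≤ C * ‖k‖ + κ) :
    ‖t‖ ≤ 2 * C := by
  have hA : ∀ i j, i ≠ j → (Φ.A i ∩ Φ.A j).Finite := fun i j h => PBS.A_inter Φ h
  refine ContinuousLinearMap.opNorm_le_bound _ (by positivity) fun h => ?_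
  exact PLW.lower Φ hA (PBS.A_inf Φ) (fun i h => (PCO.ind_mem Φ i h hA).1) t D
    ((Cardinal.le_aleph0_iff_set_countable.2 hD).trans_lt Cardinal.aleph0_lt_continuum) C hC H h

theorem closed_XS : IsClosed (XS Φ : Set BB) :=
  PCL.isClosed_XS Φ (fun k c B h hB => PBS.Lim_norm Φ h B hB)

instance complete_XS : CompleteSpace (XS Φ) := (closed_XS Φ).completeSpace_coe

theorem hat_sub' (t s : CD →L[ℝ] CD) (k : BB) : hat (t - s) k = hat t k - hat s k := by
  apply BB.ext; intro e; simp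

/-- operators that are limits of tables -/
def Cl (t : CD →L[ℝ] CD) : Prop := ∀ δ > 0, ∃ c : Tb, ‖t - opD c‖ ≤ δ

theorem Cl.pres {t : CD →L[ℝ] CD} (ht : Cl t) (k : BB) (hk : k ∈ XS Φ) : hat t k ∈ XS Φ := by
  have h : hat t k ∈ closure (XS Φ : Set BB) := by
    rw [Metric.mem_closure_iff]
    intro ε hε
    obtain ⟨c, hc⟩ := ht (ε / (2 * (‖k‖ + 1))) (by positivity)
    refine ⟨hat (opD c) k, PMU.hat_opD_mem Φ c hk, ?_⟩
    rw [dist_eq_norm, ← hat_sub']
    refine (PNS.hat_norm_le _ _).trans_lt ?_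
    calc ‖t - opD c‖ * ‖k‖ ≤ ε / (2 * (‖k‖ + 1)) * (‖k‖ + 1) := by
          gcongr
          linarith
      _ = ε / 2 := by field_simp
      _ < ε := half_lt_self hε
  rwa [(closed_XS Φ).closure_eq] at h

/-- the action on the space -/
def hatT (t : CD →L[ℝ] CD) (ht : Cl t) : XS Φ →L[ℝ] XS Φ :=
  ((hat t).comp (XS Φ).subtypeL).codRestrict (XS Φ) (fun k => ht.pres Φ _ k.2)

theorem hatT_coe (t : CD →L[ℝ] CD) (ht : Cl t) (k : XS Φ) :
    ((hatT Φ t ht k : XS Φ) : BB) = hat t (k : BB) := rfl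

theorem decomp (hms : ∀ n, MeasurableSet {x | n ∈ Φ.a x}) (T : XS Φ →L[ℝ] XS Φ) :
    ∃ (t : CD →L[ℝ] CD) (ht : Cl t),
      TopologicalSpace.IsSeparable (range fun k => T k - hatT Φ t ht k) := by
  obtain ⟨L, hL⟩ := PLL.exists_limL Φ (fun k c c' h h' => PBS.Lim_unique Φ h h')
    (fun k c B h hB => PBS.Lim_norm Φ h B hB)
  have h0 : ∀ n : ℕ, ∃ c : Tb, Sp (fun k => T k - hatX Φ c k) ((1 / 2 : ℝ) ^ n) := by
    intro n
    obtain ⟨c, hc, -⟩ := approx_c Φ hms L hL T ((1 / 2 : ℝ) ^ n) (by positivity)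
    exact ⟨c, hc⟩
  choose c hc using h0
  have h1 : ∀ n, dist (opD (c n)) (opD (c (n + 1))) ≤ 3 * (1 / 2 : ℝ) ^ n := by
    intro n
    rw [clm_dist]
    obtain ⟨D, hD, H⟩ := (hc (n + 1)).add (hc n).neg
    have := lower_c Φ (opD (c n) - opD (c (n + 1))) D hD ((1 / 2 : ℝ) ^ (n + 1) + (1 / 2 : ℝ) ^ n)
        (by positivity) (fun k κ hκ => by
      obtain ⟨d, hd, h2⟩ := H k κ hκ
      refine ⟨d, hd, ?_⟩
      have e : hat (opD (c n) - opD (c (n + 1))) (k : BB) - (d : BB) =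
          ((T k - hatX Φ (c (n + 1)) k + -(T k - hatX Φ (c n) k) - d : XS Φ) : BB) := by
        rw [hat_sub']
        simp only [Submodule.coe_sub, Submodule.coe_add, Submodule.coe_neg, hatX_coe]
        abel
      rw [e]
      exact h2)
    refine this.trans (le_of_eq ?_)
    rw [pow_succ]; ring
  have hCau : CauchySeq fun n => opD (c n) :=
    cauchySeq_of_le_geometric (1 / 2) 3 (by norm_num) h1
  obtain ⟨t, ht⟩ := cauchySeq_tendsto_of_complete hCau
  have h2 : ∀ n, ‖t - opD (c n)‖ ≤ 6 * (1 / 2 : ℝ) ^ n := by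
    intro n
    rw [← clm_dist, dist_comm]
    refine (dist_le_of_le_geometric_of_tendsto (1 / 2) 3 (by norm_num) h1 ht n).trans (le_of_eq ?_)
    ring
  have hpow : ∀ δ : ℝ, 0 < δ → ∃ n : ℕ, 7 * (1 / 2 : ℝ) ^ n ≤ δ := by
    intro δ hδ
    obtain ⟨n, hn⟩ := exists_pow_lt_of_lt_one (show 0 < δ / 7 by positivity)
      (show (1 / 2 : ℝ) < 1 by norm_num)
    exact ⟨n, by linarith⟩
  have hCl : Cl t := by
    intro δ hδ
    obtain ⟨n, hn⟩ := hpow δ hδ
    refine ⟨c n, (h2 n).trans ?_⟩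
    have : (0 : ℝ) < (1 / 2 : ℝ) ^ n := by positivity
    linarith
  refine ⟨t, hCl, sep_of_Sp fun ε hε => ?_⟩
  obtain ⟨n, hn⟩ := hpow ε hε
  have h3 : Sp (fun k => hatX Φ (c n) k - hatT Φ t hCl k) (6 * (1 / 2 : ℝ) ^ n) := by
    refine Sp.of_bdd fun k => ?_
    have e : ‖hatX Φ (c n) k - hatT Φ t hCl k‖ = ‖hat (t - opD (c n)) (k : BB)‖ := by
      rw [hat_sub', ← norm_neg]
      show ‖-(hat (opD (c n)) (k : BB) - hat t (k : BB))‖ = _
      rw [neg_sub]
    rw [e]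
    refine (PNS.hat_norm_le _ _).trans ?_
    exact mul_le_mul_of_nonneg_right (h2 n) (norm_nonneg _)
  refine ((hc n).add h3).congr (fun k => ?_) |>.mono ?_
  · abel
  · linarith

theorem inv_near {W : Type} [NormedAddCommGroup W] [NormedSpace ℝ W] [CompleteSpace W]
    (E : W →L[ℝ] W) (hE : ‖E‖ < 1) : ∃ J : W →L[ℝ] W, ∀ v, J (v + E v) = v := by
  have h : ‖-E‖ < 1 := by rwa [norm_neg]
  let u := Units.oneSub (-E) h
  have hu : (u : W →L[ℝ] W) = 1 - -E := rfl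
  refine ⟨(u⁻¹ : (W →L[ℝ] W)ˣ), fun v => ?_⟩
  have h1 : ((u⁻¹ : (W →L[ℝ] W)ˣ) : W →L[ℝ] W) * (u : W →L[ℝ] W) = 1 := u.inv_mul
  have h2 := congrArg (fun f : W →L[ℝ] W => f v) h1
  simp only [hu] at h2
  have h3 : ((((u⁻¹ : (W →L[ℝ] W)ˣ) : W →L[ℝ] W) * (1 - -E)) v) =
      ((u⁻¹ : (W →L[ℝ] W)ˣ) : W →L[ℝ] W) (v + E v) := by
    rw [ContinuousLinearMap.mul_apply]
    congr 1
    simp
  rw [h3] at h2
  exact h2

theorem corner (hms : ∀ n, MeasurableSet {x | n ∈ Φ.a x}) (R : XS Φ →L[ℝ] XS Φ)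
    (hR : TopologicalSpace.IsSeparable (range R)) :
    ∃ (A0 : XS Φ →L[ℝ] CD) (B0 : CD →L[ℝ] XS Φ), ∀ v, A0 (B0 v + R (B0 v)) = v := by
  obtain ⟨L, hL⟩ := PLL.exists_limL Φ (fun k c c' h h' => PBS.Lim_unique Φ h h')
    (fun k c B h hB => PBS.Lim_norm Φ h B hB)
  obtain ⟨c, hc, e, he⟩ := approx_c Φ hms L hL R (1 / 10) (by norm_num)
  have hcn : ‖opD c‖ ≤ 2 * (1 / 10) := by
    obtain ⟨D, hD, H⟩ := ((Sp_of_sep hR).add hc.neg)
    refine lower_c Φ (opD c) D hD _ (by norm_num) (fun k κ hκ => ?_)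
    obtain ⟨d, hd, h2⟩ := H k κ hκ
    refine ⟨d, hd, ?_⟩
    have e : hat (opD c) (k : BB) - (d : BB) =
        ((R k + -(R k - hatX Φ c k) - d : XS Φ) : BB) := by
      simp only [Submodule.coe_sub, Submodule.coe_add, Submodule.coe_neg, hatX_coe]
      abel
    rw [e]
    rw [zero_add] at h2
    exact h2
  let E : CD →L[ℝ] CD := matOf Φ (R - (cstL Φ).comp (L.comp R)) e e
  have hE : ‖E‖ < 1 := by
    refine lt_of_le_of_lt (ContinuousLinearMap.opNorm_le_of_unit_norm (C := 3 / 10)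
      (by norm_num) fun h hh => ?_) (by norm_num)
    have h1 := he h hh.le
    have h2 : ‖opD c h‖ ≤ 2 / 10 := by
      refine ((opD c).le_opNorm h).trans ?_
      rw [hh]; linarith
    have e1 : E h = (E h - opD c h) + opD c h := by abel
    rw [e1]
    refine (norm_add_le _ _).trans ?_
    linarith
  obtain ⟨J, hJ⟩ := inv_near E hE
  refine ⟨J.comp (((BB.evalL e).comp (XS Φ).subtypeL) - L), singleL Φ e, fun v => ?_⟩
  have hLs : L (singleL Φ e v) = 0 := PBS.Lim_unique Φ (hL (singleL Φ e v)) (single_Lim Φ e v)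
  have h1 : (((BB.evalL e).comp (XS Φ).subtypeL) - L) (singleL Φ e v + R (singleL Φ e v)) =
      v + E v := by
    rw [ContinuousLinearMap.sub_apply, map_add, map_add, hLs, zero_add]
    have e2 : ((BB.evalL e).comp (XS Φ).subtypeL) (singleL Φ e v) = v := by
      show single e v e = v
      rw [single_apply, if_pos rfl]
    have e3 : E v = ((BB.evalL e).comp (XS Φ).subtypeL) (R (singleL Φ e v)) -
        L (R (singleL Φ e v)) := rfl
    rw [e2, e3]
    abel
  show J ((((BB.evalL e).comp (XS Φ).subtypeL) - L) (singleL Φ e v + R (singleL Φ e v))) = v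
  rw [h1, hJ]

end

theorem pull_push (i j : Fin 3) (h : CD) : pullC i (pushC j h) = if i = j then h else 0 := by
  ext y
  rw [pullC_apply, pushC_apply, cons_zero, tl_cons]
  split_ifs <;> rfl

/-- the identity factors through a perturbation of the identity that factors through `C(Δ)`,
as soon as the identity of `C(Δ)` does -/
theorem factor_gen {Y : Type} [NormedAddCommGroup Y] [NormedSpace ℝ Y] (R : Y →L[ℝ] Y)
    (α : Y →L[ℝ] CD) (β : CD →L[ℝ] Y) (hR : ∀ y, β (α y) = R y)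
    (A0 : Y →L[ℝ] CD) (B0 : CD →L[ℝ] Y) (h0 : ∀ v, A0 (B0 v + R (B0 v)) = v) :
    ∃ A B : Y →L[ℝ] Y, ∀ y, A (B y + R (B y)) = y := by
  let T : Y →L[ℝ] Y := ContinuousLinearMap.id ℝ Y + R
  have hT : ∀ y, T y = y + R y := fun _ => rfl
  have h0' : ∀ v, A0 (T (B0 v)) = v := h0
  let A0T : Y →L[ℝ] CD := A0.comp T
  let B : Y →L[ℝ] Y := ContinuousLinearMap.id ℝ Y - B0.comp A0T +
    B0.comp ((pushC 0).comp A0T + (pushC 1).comp α)
  have hB : ∀ y, B y = y - B0 (A0 (T y)) + B0 (pushC 0 (A0 (T y)) + pushC 1 (α y)) := fun _ => rfl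
  let A : Y →L[ℝ] Y := ContinuousLinearMap.id ℝ Y - T.comp (B0.comp A0) +
    T.comp (B0.comp ((pullC 0).comp A0)) - β.comp ((pullC 1).comp A0)
  have hA : ∀ w, A w = w - T (B0 (A0 w)) + T (B0 (pullC 0 (A0 w))) - β (pullC 1 (A0 w)) :=
    fun _ => rfl
  refine ⟨A, B, fun y => ?_⟩
  rw [← hT (B y)]
  have h1 : T (B y) = T y - T (B0 (A0 (T y))) + T (B0 (pushC 0 (A0 (T y)) + pushC 1 (α y))) := by
    rw [hB, map_add, map_sub]
  have h2 : A0 (T (B y)) = pushC 0 (A0 (T y)) + pushC 1 (α y) := by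
    rw [h1, map_add, map_sub, h0', h0']
    abel
  rw [hA, h2, map_add (pullC 0), map_add (pullC 1), pull_push, pull_push, pull_push, pull_push,
    if_pos rfl, if_pos rfl, if_neg (by decide), if_neg (by decide), add_zero, zero_add, h1, hR, hT y]
  abel

theorem sep_comp {X Y Z W : Type} [NormedAddCommGroup Y] [NormedAddCommGroup Z]
    (R : X → Y) (hR : TopologicalSpace.IsSeparable (range R)) (f : Y → Z) (hf : Continuous f)
    (g : W → X) : TopologicalSpace.IsSeparable (range fun w => f (R (g w))) := by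
  refine (hR.image hf).mono ?_
  rintro _ ⟨w, rfl⟩
  exact ⟨R (g w), ⟨g w, rfl⟩, rfl⟩

theorem sep_add {X Y : Type} [NormedAddCommGroup Y]
    {R S : X → Y} (hR : TopologicalSpace.IsSeparable (range R))
    (hS : TopologicalSpace.IsSeparable (range S)) :
    TopologicalSpace.IsSeparable (range fun w => R w + S w) := by
  refine ((hR.prod hS).image continuous_add).mono ?_
  rintro _ ⟨w, rfl⟩
  exact ⟨(R w, S w), ⟨⟨w, rfl⟩, ⟨w, rfl⟩⟩, rfl⟩

section
variable {I : Type} (Φ : Fam I)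

theorem factor_XS {E : Type} [NormedAddCommGroup E] [NormedSpace ℝ E] (R : E →L[ℝ] XS Φ)
    (hR : TopologicalSpace.IsSeparable (range R)) :
    ∃ (α : E →L[ℝ] CD) (β : CD →L[ℝ] XS Φ), ∀ x, β (α x) = R x := by
  obtain ⟨K, i1, i2, i3, ⟨e⟩⟩ := PRP.exists_CK (XS Φ) (closed_XS Φ) (PMU.one_mem_XS Φ)
    (fun f hf g hg => PMU.mul_mem_XS Φ hf hg)
  obtain ⟨α, β, h⟩ := milutin ((e : XS Φ →L[ℝ] C(K, ℝ)).comp R)
    (sep_comp R hR e e.continuous id)
  refine ⟨α, (e.symm : C(K, ℝ) →L[ℝ] XS Φ).comp β, fun x => ?_⟩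
  show e.symm (β (α x)) = R x
  rw [h]
  exact e.symm_apply_apply _

theorem cl_X (hms : ∀ n, MeasurableSet {x | n ∈ Φ.a x}) (R : XS Φ →L[ℝ] XS Φ)
    (hR : TopologicalSpace.IsSeparable (range R)) :
    ∃ A B : XS Φ →L[ℝ] XS Φ, ∀ y, A (B y + R (B y)) = y := by
  obtain ⟨A0, B0, h0⟩ := corner Φ hms R hR
  obtain ⟨α, β, h⟩ := factor_XS Φ R hR
  exact factor_gen R α β h A0 B0 h0

theorem cl_Y (hms : ∀ n, MeasurableSet {x | n ∈ Φ.a x})
    (R : XS Φ × XS Φ →L[ℝ] XS Φ × XS Φ)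
    (hR : TopologicalSpace.IsSeparable (range R)) :
    ∃ A B : XS Φ × XS Φ →L[ℝ] XS Φ × XS Φ, ∀ y, A (B y + R (B y)) = y := by
  let f1 := ContinuousLinearMap.fst ℝ (XS Φ) (XS Φ)
  let f2 := ContinuousLinearMap.snd ℝ (XS Φ) (XS Φ)
  obtain ⟨α1, β1, h1⟩ := factor_XS Φ (f1.comp R) (sep_comp R hR f1 f1.continuous id)
  obtain ⟨α2, β2, h2⟩ := factor_XS Φ (f2.comp R) (sep_comp R hR f2 f2.continuous id)
  obtain ⟨A0, B0, h0⟩ := corner Φ hms
    (f1.comp (R.comp (ContinuousLinearMap.inl ℝ (XS Φ) (XS Φ))))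
    (sep_comp R hR f1 f1.continuous _)
  refine factor_gen R ((pushC 0).comp α1 + (pushC 1).comp α2)
    ((β1.comp (pullC 0)).prod (β2.comp (pullC 1))) (fun y => ?_) (A0.comp f1)
    ((ContinuousLinearMap.inl ℝ (XS Φ) (XS Φ)).comp B0) (fun v => ?_)
  · show (β1 (pullC 0 (pushC 0 (α1 y) + pushC 1 (α2 y))),
      β2 (pullC 1 (pushC 0 (α1 y) + pushC 1 (α2 y)))) = R y
    rw [map_add (pullC 0), map_add (pullC 1), pull_push, pull_push, pull_push, pull_push,
      if_pos rfl, if_pos rfl, if_neg (by decide), if_neg (by decide), add_zero, zero_add, h1, h2]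
    rfl
  · have := h0 v
    exact this

/-- the identity of `X` factors through an operator with nonzero symbol -/
theorem fac_big (hms : ∀ n, MeasurableSet {x | n ∈ Φ.a x}) (T : XS Φ →L[ℝ] XS Φ)
    (t : CD →L[ℝ] CD) (ht : Cl t)
    (hs : TopologicalSpace.IsSeparable (range fun k => T k - hatT Φ t ht k)) (h0 : t ≠ 0) :
    ∃ A B : XS Φ →L[ℝ] XS Φ, ∀ y, A (T (B y)) = y := by
  have htpos : 0 < ‖t‖ := by
    rcases (norm_nonneg t).eq_or_lt with h | h
    · exfalso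
      apply h0
      apply ContinuousLinearMap.ext
      intro k
      have h2 := t.le_opNorm k
      rw [← h, zero_mul] at h2
      exact norm_le_zero_iff.1 h2
    · exact h
  obtain ⟨c, hc⟩ := ht (‖t‖ / 8) (by positivity)
  have hcn : 7 / 8 * ‖t‖ ≤ ‖opD c‖ := by
    have h1 : ‖t‖ ≤ ‖t - opD c‖ + ‖opD c‖ := by
      have e : t = (t - opD c) + opD c := by abel
      conv_lhs => rw [e]
      exact clm_add _ _
    linarith
  have hc0 : opD c ≠ 0 := by
    intro h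
    rw [h, clm_zero] at hcn
    linarith
  obtain ⟨x, y, hxy, hx, hy⟩ := leavitt c hc0
  have hcpos : 0 < ‖opD c‖ := by linarith
  let V : XS Φ →L[ℝ] XS Φ := (hatX Φ x).comp ((hatT Φ t ht).comp (hatX Φ y))
  let E : XS Φ →L[ℝ] XS Φ := V - ContinuousLinearMap.id ℝ _
  have hE : ‖E‖ < 1 := by
    refine lt_of_le_of_lt (ContinuousLinearMap.opNorm_le_bound _ (M := 1 / 7) (by norm_num)
      fun k => ?_) (by norm_num)
    have h1 : ‖E k‖ ≤ ‖(opD x).comp ((t - opD c).comp (opD y))‖ * ‖(k : BB)‖ := by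
      have e : ((E k : XS Φ) : BB) = hat ((opD x).comp ((t - opD c).comp (opD y))) (k : BB) := by
        apply BB.ext
        intro e
        have h2 := hxy ((k : BB) e)
        have h3 : ((E k : XS Φ) : BB) e = opD x (t (opD y ((k : BB) e))) - (k : BB) e := rfl
        rw [h3, hat_apply, ContinuousLinearMap.comp_apply, ContinuousLinearMap.comp_apply,
          ContinuousLinearMap.sub_apply, map_sub, h2]
      show ‖((E k : XS Φ) : BB)‖ ≤ _
      rw [e]
      exact PNS.hat_norm_le _ _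
    refine h1.trans ?_
    show _ ≤ 1 / 7 * ‖(k : BB)‖
    refine mul_le_mul_of_nonneg_right ?_ (norm_nonneg _)
    have h2 : ‖(opD x).comp ((t - opD c).comp (opD y))‖ ≤ 1 * ((‖t‖ / 8) * (1 / ‖opD c‖)) := by
      refine (ContinuousLinearMap.opNorm_comp_le _ _).trans ?_
      refine mul_le_mul hx ?_ (norm_nonneg _) zero_le_one
      refine (ContinuousLinearMap.opNorm_comp_le _ _).trans ?_
      exact mul_le_mul hc hy (norm_nonneg _) (by positivity)
    refine h2.trans ?_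
    rw [one_mul, mul_one_div, div_le_iff₀ hcpos]
    linarith
  obtain ⟨J, hJ⟩ := inv_near E hE
  have hJV : ∀ k, J (V k) = k := by
    intro k
    have : V k = k + E k := by
      show V k = k + (V k - k)
      abel
    rw [this, hJ]
  let R : XS Φ →L[ℝ] XS Φ := J.comp ((hatX Φ x).comp ((T - hatT Φ t ht).comp (hatX Φ y)))
  have hRs : TopologicalSpace.IsSeparable (range R) :=
    sep_comp _ hs (fun k => J (hatX Φ x k)) (J.continuous.comp (hatX Φ x).continuous) (hatX Φ y)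
  obtain ⟨A, B, hAB⟩ := cl_X Φ hms R hRs
  refine ⟨A.comp (J.comp (hatX Φ x)), (hatX Φ y).comp B, fun k => ?_⟩
  have h1 : J (hatX Φ x (T (hatX Φ y (B k)))) = B k + R (B k) := by
    have e : T (hatX Φ y (B k)) = hatT Φ t ht (hatX Φ y (B k)) +
        (T (hatX Φ y (B k)) - hatT Φ t ht (hatX Φ y (B k))) := by abel
    rw [e, map_add, map_add]
    congr 1
    exact hJV (B k)
  show A (J (hatX Φ x (T (hatX Φ y (B k))))) = k
  rw [h1, hAB]

/-- tables embedding two copies in one -/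
def pu (i : Fin 3) : Tb := Finsupp.single ([i], []) 1
def pl (i : Fin 3) : Tb := Finsupp.single ([], [i]) 1

theorem pl_pu (i j : Fin 3) (k : XS Φ) :
    hatX Φ (pl i) (hatX Φ (pu j) k) = if i = j then k else 0 := by
  apply Subtype.ext
  apply BB.ext
  intro e
  rw [hatX_apply, hatX_apply]
  have h1 : ∀ h, opD (pl i) h = pullC i h := by
    intro h
    rw [pl, PTA.opD_single, one_smul]; rfl
  have h2 : ∀ h, opD (pu j) h = pushC j h := by
    intro h
    rw [pu, PTA.opD_single, one_smul]; rfl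
  rw [h1, h2, pull_push]
  split_ifs <;> rfl

theorem pfp (hms : ∀ n, MeasurableSet {x | n ∈ Φ.a x})
    (T : XS Φ × XS Φ →L[ℝ] XS Φ × XS Φ) :
    (∃ A B : XS Φ × XS Φ →L[ℝ] XS Φ × XS Φ, ∀ y, A (T (B y)) = y) ∨
    (∃ A B : XS Φ × XS Φ →L[ℝ] XS Φ × XS Φ, ∀ y, A (B y - T (B y)) = y) := by
  let X := XS Φ
  let f : Bool → (XS Φ × XS Φ →L[ℝ] XS Φ) := fun i =>
    if i then ContinuousLinearMap.fst ℝ (XS Φ) (XS Φ) else ContinuousLinearMap.snd ℝ (XS Φ) (XS Φ)
  let g : Bool → (XS Φ →L[ℝ] XS Φ × XS Φ) := fun i =>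
    if i then ContinuousLinearMap.inl ℝ (XS Φ) (XS Φ) else ContinuousLinearMap.inr ℝ (XS Φ) (XS Φ)
  have hdec := fun i j : Bool => decomp Φ hms ((f i).comp (T.comp (g j)))
  choose t ht hs using hdec
  by_cases hcase : ∃ i j, t i j ≠ 0
  · obtain ⟨i, j, hij⟩ := hcase
    obtain ⟨A, B, hAB⟩ := fac_big Φ hms _ (t i j) (ht i j) (hs i j) hij
    let P : XS Φ →L[ℝ] XS Φ × XS Φ := (hatX Φ (pl 0)).prod (hatX Φ (pl 1))
    let J : XS Φ × XS Φ →L[ℝ] XS Φ := (hatX Φ (pu 0)).coprod (hatX Φ (pu 1))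
    refine Or.inl ⟨P.comp (A.comp (f i)), (g j).comp (B.comp J), fun y => ?_⟩
    show P (A (f i (T (g j (B (J y)))))) = y
    have h1 : A (f i (T (g j (B (J y))))) = J y := hAB (J y)
    rw [h1]
    have h2 : J y = hatX Φ (pu 0) y.1 + hatX Φ (pu 1) y.2 :=
      ContinuousLinearMap.coprod_apply _ _ _
    have h3 : P (J y) = (hatX Φ (pl 0) (J y), hatX Φ (pl 1) (J y)) := rfl
    rw [h3, h2, map_add, map_add, pl_pu, pl_pu, pl_pu, pl_pu, if_pos rfl, if_pos rfl,
      if_neg (by decide), if_neg (by decide), add_zero, zero_add]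
  · push Not at hcase
    have hs' : ∀ i j, TopologicalSpace.IsSeparable (range fun k => f i (T (g j k))) := by
      intro i j
      have h1 := hs i j
      have h2 : (fun k => ((f i).comp (T.comp (g j))) k - hatT Φ (t i j) (ht i j) k) =
          fun k => f i (T (g j k)) := by
        funext k
        have h3 : hatT Φ (t i j) (ht i j) k = 0 := by
          apply Subtype.ext
          apply BB.ext
          intro e
          rw [hatT_coe, hat_apply, hcase i j]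
          rfl
        rw [h3, sub_zero]
        rfl
      rw [h2] at h1
      exact h1
    have hTs : TopologicalSpace.IsSeparable (range fun y => T y) := by
      have hrow : ∀ i, TopologicalSpace.IsSeparable (range fun y : XS Φ × XS Φ => f i (T y)) := by
        intro i
        have h1 := sep_add (sep_comp _ (hs' i true) id continuous_id
            (fun y : XS Φ × XS Φ => y.1))
          (sep_comp _ (hs' i false) id continuous_id (fun y : XS Φ × XS Φ => y.2))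
        have h2 : (fun w : XS Φ × XS Φ => id (f i (T (g true w.1))) + id (f i (T (g false w.2)))) =
            fun y => f i (T y) := by
          funext y
          show f i (T (g true y.1)) + f i (T (g false y.2)) = f i (T y)
          rw [← map_add, ← map_add]
          congr 2
          show ((y.1, 0) : XS Φ × XS Φ) + (0, y.2) = y
          ext1 <;> simp
        rw [h2] at h1
        exact h1
      refine (((hrow true).prod (hrow false))).mono ?_
      rintro _ ⟨y, rfl⟩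
      exact ⟨⟨y, rfl⟩, ⟨y, rfl⟩⟩
    obtain ⟨A, B, hAB⟩ := cl_Y Φ hms (-T) (by
      have := sep_comp _ hTs (fun y => -y) continuous_neg id
      exact this)
    refine Or.inr ⟨A, B, fun y => ?_⟩
    have := hAB y
    rw [ContinuousLinearMap.neg_apply, ← sub_eq_add_neg] at this
    exact this

end

end Pool.Agent.W689.PF
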