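import Pool.Agent.W689.PF.Match

set_option autoImplicit false

noncomputable section

open Set Function Topology Filter
open scoped Cardinal
open Pool.Agent.S04901.CK

namespace Pool.Agent.W689.PF

theorem exists_AD' : ∃ a : (ℕ → Bool) → Set ℕ, (∀ x, (a x).Infinite) ∧
    (∀ x y, x ≠ y → (a x ∩ a y).Finite) ∧ ∀ n, MeasurableSet {x | n ∈ a x} := by
  let cd : (ℕ → Bool) → ℕ → ℕ := fun x n => Encodable.encode (List.ofFn (fun i : Fin n => x i))
  have hcd : ∀ x y n m, cd x n = cd y m → n = m ∧ ∀ i, i < n → x i = y i := by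
    intro x y n m h
    have h1 : List.ofFn (fun i : Fin n => x i) = List.ofFn (fun i : Fin m => y i) :=
      Encodable.encode_injective h
    have h2 : n = m := by
      have := congrArg List.length h1
      simpa using this
    subst h2
    refine ⟨rfl, fun i hi => ?_⟩
    have h3 := List.ofFn_injective h1
    exact congrFun h3 ⟨i, hi⟩
  refine ⟨fun x => Set.range (cd x), ?_, ?_, ?_⟩
  · intro x
    apply Set.infinite_range_of_injective
    intro n m h
    exact (hcd x x n m h).1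
  · intro x y hxy
    obtain ⟨k, hk⟩ := Function.ne_iff.1 hxy
    refine Set.Finite.subset ((Set.finite_Iic k).image (cd x)) ?_
    rintro c ⟨⟨n, rfl⟩, ⟨m, hm⟩⟩
    refine ⟨n, ?_, rfl⟩
    rw [Set.mem_Iic]
    by_contra hlt
    exact hk ((hcd x y n m hm.symm).2 k (not_le.1 hlt))
  · intro m
    have h : {x : ℕ → Bool | m ∈ Set.range (cd x)} = ⋃ n, {x | cd x n = m} := by
      ext x
      simp only [mem_iUnion]
      rfl
    rw [h]
    refine MeasurableSet.iUnion fun n => ?_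
    have h2 : {x | cd x n = m} = (fun (x : ℕ → Bool) (i : Fin n) => x i) ⁻¹'
        {w | Encodable.encode (List.ofFn w) = m} := rfl
    rw [h2]
    exact (measurable_pi_lambda _ (fun i => measurable_pi_apply _)) MeasurableSet.of_discrete

theorem exists_fam' : ∃ (I : Type) (Φ : Fam I), ∀ n, MeasurableSet {x | n ∈ Φ.a x} := by
  obtain ⟨a, ha, had, ham⟩ := exists_AD'
  have hB : #(ℕ → Bool) = 𝔠 := by simp
  obtain ⟨I, x, y, g, hI, hx, hy, hxy, hQ, hk⟩ := PGR.general_rec (B := ℕ → Bool) (G := ℕ → CD)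
    (S := Mat) hB PCM.card_Mat
    (fun x y f => (∀ e, ‖f e‖ ≤ 1) ∧ ∀ e ∉ a x ∪ a y, f e = 0)
    (fun x y => ⟨fun _ => 0, by simp, by simp⟩)
    (fun M x y f => Appr M (a x ∪ a y) f)
  exact ⟨I, { a := a, a_inf := ha, a_ad := had, x := x, y := y, x_inj := hx, y_inj := hy, xy := hxy,
               g := g, g_le := fun i => (hQ i).1, g_supp := fun i => (hQ i).2, card := hI,
               kill := fun M N hN => by
                 obtain ⟨i, hi, U, hU, h⟩ := hk M N hN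
                 exact ⟨i, hi, U, hU, fun h1 x' y' hx' hy' hne f hf1 hf2 =>
                   h h1 x' y' hx' hy' hne f ⟨hf1, hf2⟩⟩ }, ham⟩

/-- smallness off the diagonal is tested on finite sets -/
theorem offSmall_iff {M : Mat} {C : ℝ} (hM : RowBd M C) (t : Set ℕ) (F : Finset ℕ) (e : ℕ) (δ : ℝ) :
    PKE.OffSmall M t F e δ ↔ ∀ s : Finset ℕ, (s : Set ℕ) ⊆ t → PKE.OffSmall M (s : Set ℕ) F e δ := by
  classical
  constructor
  · intro h s hs
    exact PBD.offSmall_mono_aux M _ _ hs F e δ h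
  · intro H u f hf hf0
    have hsum := (PKE.summ hM e (app u ystar) f hf).hasSum
    refine le_of_tendsto' hsum.abs fun s => ?_
    let s' : Finset ℕ := s.filter (fun x => x ∈ t)
    let f' : ℕ → CD := fun e' => if e' ∈ s' then f e' else 0
    have h1 := H s' (fun x hx => (Finset.mem_filter.1 hx).2) u f' (by
      intro e'
      simp only [f']
      split_ifs
      · exact hf e'
      · simp) (by
      intro e' he'
      simp only [f']
      split_ifs with h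
      · rcases he' with h2 | h2
        · exact absurd h h2
        · exact hf0 e' (Or.inr h2)
      · rfl)
    have h2 : ∑' e', (M e e' (f' e')) (app u ystar) = ∑ e' ∈ s, (M e e' (f e')) (app u ystar) := by
      rw [tsum_eq_sum (s := s) (fun e' he' => ?_)]
      · refine Finset.sum_congr rfl fun e' he' => ?_
        by_cases ht : e' ∈ t
        · have : e' ∈ s' := Finset.mem_filter.2 ⟨he', ht⟩
          simp only [f', if_pos this]
        · have : e' ∉ s' := fun h => ht (Finset.mem_filter.1 h).2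
          simp only [f', if_neg this, hf0 e' (Or.inl ht)]
      · have : e' ∉ s' := fun h => he' (Finset.mem_filter.1 h).1
        simp only [f', if_neg this, map_zero, ContinuousMap.zero_apply]
    rw [h2] at h1
    exact h1

theorem meas_imp {β : Type} [MeasurableSpace β] {p : β → Prop} (hp : MeasurableSet {x | p x})
    (Q : Prop) : MeasurableSet {x | p x → Q} := by
  by_cases hQ : Q
  · have : {x | p x → Q} = univ := by ext x; simp [hQ]
    rw [this]; exact MeasurableSet.univ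
  · have : {x | p x → Q} = {x | p x}ᶜ := by ext x; simp [hQ]
    rw [this]; exact hp.compl

theorem meas_off {M : Mat} {C : ℝ} (hM : RowBd M C) (a : (ℕ → Bool) → Set ℕ)
    (ha : ∀ n, MeasurableSet {x | n ∈ a x}) (F : Finset ℕ) (e : ℕ) (δ : ℝ) :
    MeasurableSet {b | PKE.OffSmall M (a b) F e δ} := by
  have h : {b | PKE.OffSmall M (a b) F e δ} = ⋂ s : Finset ℕ,
      {b | (s : Set ℕ) ⊆ a b → PKE.OffSmall M (s : Set ℕ) F e δ} := by
    ext b
    simp only [mem_iInter]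
    exact offSmall_iff hM (a b) F e δ
  rw [h]
  refine MeasurableSet.iInter fun s => meas_imp ?_ _
  have h2 : {b | (s : Set ℕ) ⊆ a b} = ⋂ n ∈ s, {b | n ∈ a b} := by
    ext b
    simp only [mem_iInter]
    rfl
  rw [h2]
  exact Finset.measurableSet_biInter s fun n _ => ha n

theorem countable_exc {M : Mat} {C : ℝ} (hM : RowBd M C) (a : (ℕ → Bool) → Set ℕ)
    (ha : ∀ n, MeasurableSet {x | n ∈ a x}) (U : Set (ℕ → Bool)) (hU : #U < 𝔠) (P : ℕ → Prop)
    (hdiag : ∀ b, b ∉ U → ∃ F : Finset ℕ, ∀ e ∈ a b, e ∉ F → P e)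
    (hoff : ∀ b b', b ∉ U → b' ∉ U → ∀ δ > 0, ∃ F : Finset ℕ, ∀ e ∈ a b', e ∉ F →
      PKE.OffSmall M (a b) F e δ) :
    ∃ U' : Set (ℕ → Bool), U'.Countable ∧
      (∀ b, b ∉ U' → ∃ F : Finset ℕ, ∀ e ∈ a b, e ∉ F → P e) ∧
      (∀ b b', b ∉ U' → b' ∉ U' → ∀ δ > 0, ∃ F : Finset ℕ, ∀ e ∈ a b', e ∉ F →
        PKE.OffSmall M (a b) F e δ) := by
  let Dg : Set (ℕ → Bool) := {b | ∃ F : Finset ℕ, ∀ e ∈ a b, e ∉ F → P e}
  let Of : Set ((ℕ → Bool) × (ℕ → Bool)) := {p | ∀ k : ℕ, ∃ F : Finset ℕ, ∀ e ∈ a p.2, e ∉ F →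
      PKE.OffSmall M (a p.1) F e (1 / ((k : ℝ) + 1))}
  have hDg : MeasurableSet Dg := by
    have h : Dg = ⋃ F : Finset ℕ, ⋂ e, {b | e ∈ a b → (e ∉ F → P e)} := by
      ext b
      simp only [mem_iUnion, mem_iInter]
      rfl
    rw [h]
    exact MeasurableSet.iUnion fun F => MeasurableSet.iInter fun e => meas_imp (ha e) _
  have hOf : MeasurableSet Of := by
    have h : Of = ⋂ k : ℕ, ⋃ F : Finset ℕ, ⋂ e : ℕ,
        ({p : (ℕ → Bool) × (ℕ → Bool) | e ∈ a p.2 → e ∈ F} ∪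
        {p : (ℕ → Bool) × (ℕ → Bool) | PKE.OffSmall M (a p.1) F e (1 / ((k : ℝ) + 1))}) := by
      ext p
      simp only [mem_iUnion, mem_iInter, mem_union]
      constructor
      · intro h k
        obtain ⟨F, hF⟩ := h k
        refine ⟨F, fun e => ?_⟩
        by_cases h1 : e ∈ a p.2
        · by_cases h2 : e ∈ F
          · exact Or.inl fun _ => h2
          · exact Or.inr (hF e h1 h2)
        · exact Or.inl fun h => absurd h h1
      · intro h k
        obtain ⟨F, hF⟩ := h k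
        refine ⟨F, fun e he heF => ?_⟩
        rcases hF e with h1 | h1
        · exact absurd (h1 he) heF
        · exact h1
    rw [h]
    refine MeasurableSet.iInter fun k => MeasurableSet.iUnion fun F => MeasurableSet.iInter fun e => ?_
    refine MeasurableSet.union ?_ ?_
    · exact meas_imp (p := fun p : (ℕ → Bool) × (ℕ → Bool) => e ∈ a p.2) (measurable_snd (ha e)) _
    · exact measurable_fst (meas_off hM a ha F e _)
  have hbad : MeasurableSet ({p : (ℕ → Bool) × (ℕ → Bool) | p.1 ∈ Dg}ᶜ ∪ Ofᶜ) :=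
    (measurable_fst hDg).compl.union hOf.compl
  obtain ⟨U', hU', H⟩ := matching _ hbad U hU (by
    intro p hp
    by_contra hcon
    push Not at hcon
    rcases hp with h | h
    · exact h (hdiag p.1 hcon.1)
    · exact h fun k => hoff p.1 p.2 hcon.1 hcon.2 _ (by positivity))
  refine ⟨U', hU', fun b hb => ?_, fun b b' hb hb' δ hδ => ?_⟩
  · by_contra hcon
    rcases H (b, b) (Or.inl hcon) with h | h <;> exact hb h
  · have h1 : (b, b') ∈ Of := by
      by_contra hcon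
      rcases H (b, b') (Or.inr hcon) with h | h
      · exact hb h
      · exact hb' h
    obtain ⟨k, hk⟩ := exists_nat_one_div_lt hδ
    obtain ⟨F, hF⟩ := h1 k
    refine ⟨F, fun e he heF u f hf hf0 => (hF e he heF u f hf hf0).trans hk.le⟩

section
variable {I : Type} (Φ : Fam I)

theorem dens_c (J : Set I) (hJ : J.Countable) :
    ∃ D : Set (XS Φ), D.Countable ∧ ∀ k : XS Φ,
      (∀ κ > 0, ∃ t : Finset I, (∀ i ∈ t, i ∈ J) ∧ ∃ F : Finset ℕ,
        ∀ e, e ∉ F → (∀ i ∈ t, e ∉ Φ.A i) → ‖(k : BB) e‖ ≤ κ) →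
      ∀ κ > 0, ∃ d ∈ D, ‖k - d‖ ≤ κ := by
  classical
  have hJc : Countable J := hJ.to_subtype
  let q : ℕ → CD := TopologicalSpace.denseSeq CD
  have hq : DenseRange q := TopologicalSpace.denseRange_denseSeq CD
  let Y : PDE.Code J → XS Φ := fun c =>
    if h : ∃ k : XS Φ, PDE.Matches Φ J q c (fun e => (k : BB) e) then h.choose else 0
  have hcode : Countable (PDE.Code J) := by
    show Countable (List (J × Ex) × Finset ℕ × (ℕ →₀ ℕ) × ℕ)
    infer_instance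
  refine ⟨Set.range Y, Set.countable_range Y, ?_⟩
  · intro k hk κ hκ
    obtain ⟨n, hn⟩ := exists_nat_gt (2 / κ)
    have hn' : 2 * (1 / ((n : ℝ) + 1)) ≤ κ := by
      have h1 : (0 : ℝ) < (n : ℝ) + 1 := by positivity
      rw [mul_one_div, div_le_iff₀ h1]
      rw [div_lt_iff₀ hκ] at hn
      nlinarith
    obtain ⟨c, hc, hm⟩ := PDE.exists_matches Φ J q hq (fun e => (k : BB) e) (k.2.2) hk n
    have hex : ∃ k : XS Φ, PDE.Matches Φ J q c (fun e => (k : BB) e) := ⟨k, hm⟩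
    refine ⟨Y c, ⟨c, rfl⟩, ?_⟩
    have hY : PDE.Matches Φ J q c (fun e => ((Y c : XS Φ) : BB) e) := by
      have : Y c = hex.choose := dif_pos hex
      rw [this]
      exact hex.choose_spec
    show ‖((k : BB) - (Y c : XS Φ))‖ ≤ κ
    rw [BB.norm_le hκ.le]
    intro e
    have h1 := PDE.Matches.close Φ hm hY e
    rw [hc] at h1
    exact h1.trans hn'

/-- `R` is within `ε` of having separable range -/
def Sp {X Y : Type} [NormedAddCommGroup X] [NormedAddCommGroup Y] (R : X → Y) (ε : ℝ) : Prop :=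
  ∃ D : Set Y, D.Countable ∧ ∀ x : X, ∀ κ > 0, ∃ d ∈ D, ‖R x - d‖ ≤ ε * ‖x‖ + κ

theorem approx_c (hms : ∀ n, MeasurableSet {x | n ∈ Φ.a x}) (L : XS Φ →L[ℝ] CD)
    (hL : ∀ k : XS Φ, Φ.Lim (k : BB) (L k)) (T : XS Φ →L[ℝ] XS Φ) (ε : ℝ) (hε : 0 < ε) :
    ∃ c : Tb, Sp (fun k => T k - hatX Φ c k) ε ∧ ∃ e, ∀ h : CD, ‖h‖ ≤ 1 →
      ‖matOf Φ (T - (cstL Φ).comp (L.comp T)) e e h - opD c h‖ ≤ ε := by
  classical
  have hA : ∀ i j, i ≠ j → (Φ.A i ∩ Φ.A j).Finite := fun i j h => PBS.A_inter Φ h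
  set T' : XS Φ →L[ℝ] XS Φ := T - (cstL Φ).comp (L.comp T) with hT'
  have hT0 : ∀ k : XS Φ, Φ.Lim (T' k : BB) 0 := by
    intro k ε hε
    obtain ⟨t, F, H⟩ := hL (T k) ε hε
    refine ⟨t, F, fun e he h => ?_⟩
    rw [sub_zero]
    exact H e he h
  have hrow := PRB.RowBd_matOf Φ T'
  have hN1 := PEX.exc_countable Φ hA T' hrow
  have hN2 := PEZ.excz_countable Φ hA T' hT0
  set N1 := {i : I | ∃ f : XS Φ, (∀ e, e ∉ Φ.A i → (f : BB) e = 0) ∧ ∃ (e : ℕ) (u : Wd),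
      ((T' f : BB) e) (app u ystar) ≠
        ∑' e', (matOf Φ T' e e' ((f : BB) e')) (app u ystar)} with hN1d
  set N2 := {i : I | ∃ (e' : ℕ) (h : CD), ∃ κ > 0, ∀ F : Finset ℕ, ∃ e ∈ Φ.A i, e ∉ F ∧
      κ < ‖matOf Φ T' e e' h‖} with hN2d
  obtain ⟨i, hi, U0, hU0, hkill⟩ := Φ.kill (matOf Φ T') N1 hN1
  have hN1' : ∀ i, i ∉ N1 → ∀ f : XS Φ, (∀ e, e ∉ Φ.A i → (f : BB) e = 0) →
      ∀ (e : ℕ) (u : Wd),
      ((T' f : BB) e) (app u ystar) = ∑' e', (matOf Φ T' e e' ((f : BB) e')) (app u ystar) := by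
    intro i hi f hf e u
    by_contra hne
    exact hi ⟨f, hf, e, u, hne⟩
  have hAppr : Appr (matOf Φ T') (Φ.a (Φ.x i) ∪ Φ.a (Φ.y i)) (Φ.g i) := by
    intro δ hδ
    obtain ⟨P, F, H⟩ := (T' (gX Φ i)).2.2 i δ hδ
    refine ⟨P, F, fun e he heF u => ?_⟩
    have h1 := hN1' i hi (gX Φ i) (fun e he => Φ.g_supp i e he) e u
    have h2 := H e he heF
    have h3 : |((T' (gX Φ i) : BB) e - P.ev (Φ.g i e)) (app u ystar)| ≤ δ :=
      (ContinuousMap.norm_coe_le_norm _ _).trans h2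
    rw [ContinuousMap.sub_apply, h1] at h3
    exact h3
  have H := hkill hAppr
  have hkey : ∀ x' y', x' ∉ U0 → y' ∉ U0 → x' ≠ y' → ∀ ε > 0,
      ∃ c : Tb, ∃ F : Finset ℕ, ∀ e ∈ Φ.a x' ∪ Φ.a y', e ∉ F →
        (∀ h : CD, ‖h‖ ≤ 1 → ∀ u : Wd,
          |(matOf Φ T' e e h) (app u ystar) - (opD c h) (app u ystar)| ≤ 8 * ε) ∧
        PKE.OffSmall (matOf Φ T') (Φ.a x' ∪ Φ.a y') F e ε := fun x' y' hx hy hne ε hε =>
    key' (matOf Φ T') ‖T'‖ hrow _ (H x' y' hx hy hne) ε hε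
  obtain ⟨c, hc0⟩ := PBD.branch_diag Φ.a PYS.norm_le_of_ystar Φ.a_inf (matOf Φ T') U0 hU0 hkey
    (ε / 48) (by positivity)
  have hoff0 := PBD.branch_off Φ.a (matOf Φ T') U0 hU0 hkey
  obtain ⟨U, hU, hc, hoff⟩ := countable_exc hrow Φ.a hms U0 hU0 (fun e => ∀ h : CD, ‖h‖ ≤ 1 →
    ∀ u : Wd, |(matOf Φ T' e e h) (app u ystar) - (opD c h) (app u ystar)| ≤ 24 * (ε / 48))
    hc0 hoff0
  set J : Set I := {i | Φ.x i ∈ U} ∪ {i | Φ.y i ∈ U} ∪ (N1 ∪ N2) with hJ
  have hJc : J.Countable :=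
    ((hU.preimage_of_injOn Φ.x_inj.injOn).union (hU.preimage_of_injOn Φ.y_inj.injOn)).union
      (hN1.union hN2)
  obtain ⟨D0, hD0, hdens⟩ := dens_c Φ J hJc
  set Tr : XS Φ →L[ℝ] XS Φ := T' - hatX Φ c with hTr
  have hest := est Φ T' hT0 J N1 hN1' (fun i hi => Or.inr (Or.inl hi)) U
    (fun i hi h => hi (Or.inl (Or.inl h))) (fun i hi h => hi (Or.inl (Or.inr h)))
    (fun i hi e' h δ hδ => by
      by_contra hne
      push Not at hne
      exact hi (Or.inr (Or.inr ⟨e', h, δ, hδ, hne⟩)))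
    c (ε / 48) (by positivity) hc hoff
  set q : ℕ → CD := TopologicalSpace.denseSeq CD with hq
  have hqd : ∀ (h : CD) (δ : ℝ), 0 < δ → ∃ n, ‖h - q n‖ ≤ δ := fun h δ hδ => by
    obtain ⟨n, hn⟩ := (TopologicalSpace.denseRange_denseSeq CD).exists_dist_lt h hδ
    exact ⟨n, by rw [← dist_eq_norm]; exact hn.le⟩
  refine ⟨c, ⟨Set.range (fun p : ℕ × ℕ × D0 × D0 =>
    cstL Φ (q p.1) + Tr (cstL Φ (q p.2.1)) + Tr p.2.2.1 + p.2.2.2), ?_, ?_⟩, ?_⟩
  · have : Countable D0 := hD0.to_subtype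
    exact Set.countable_range _
  · intro k κ hκ
    set δ : ℝ := κ / (3 * (‖Tr‖ + 1)) with hδd
    have hδ : 0 < δ := by positivity
    set k0 : XS Φ := k - cstL Φ (L k) with hk0
    have hk0L : Φ.Lim (k0 : BB) 0 := by
      intro ε hε
      obtain ⟨t, F, H⟩ := hL k ε hε
      refine ⟨t, F, fun e he h => ?_⟩
      rw [sub_zero]
      exact H e he h
    have hLk : ‖L k‖ ≤ ‖k‖ := PBS.Lim_norm Φ (hL k) ‖k‖ (fun e => BB.norm_apply_le _ _)
    have hk0n : ‖k0‖ ≤ 2 * ‖k‖ := by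
      calc ‖k0‖ ≤ ‖k‖ + ‖cstL Φ (L k)‖ := norm_sub_le _ _
        _ ≤ ‖k‖ + ‖k‖ := by gcongr; exact (cstL_norm Φ _).trans hLk
        _ = 2 * ‖k‖ := by ring
    obtain ⟨k1, f, t, ht, hk1, hf0, hfs, hfn, hrest⟩ := split_off Φ J k0 hk0L δ hδ
    obtain ⟨g', hg', hgn⟩ := hest t ht f hf0 hfs δ hδ
    obtain ⟨d1, hd1, hd1n⟩ := hdens k1 hk1 δ hδ
    obtain ⟨d2, hd2, hd2n⟩ := hdens g' hg' δ hδ
    obtain ⟨n, hn⟩ := hqd (L (T k)) δ hδ
    obtain ⟨m, hm⟩ := hqd (L k) δ hδ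
    refine ⟨_, ⟨(n, m, ⟨d1, hd1⟩, ⟨d2, hd2⟩), rfl⟩, ?_⟩
    have hkey2 : T k - hatX Φ c k - (cstL Φ (q n) + Tr (cstL Φ (q m)) + Tr d1 + d2) =
        cstL Φ (L (T k) - q n) + Tr (cstL Φ (L k - q m)) + Tr (k1 - d1) + (Tr f - g') + (g' - d2) +
          Tr (k0 - k1 - f) := by
      have e1 : T k = T' k + cstL Φ (L (T k)) := by
        rw [hT']; simp
      have e2 : T' k - hatX Φ c k = Tr k := by rw [hTr]; rfl
      have e3 : k = cstL Φ (L k) + k0 := by rw [hk0]; abel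
      have e4 : Tr k = Tr (cstL Φ (L k)) + Tr k0 := by
        conv_lhs => rw [e3]
        rw [map_add]
      have e5 : T k - hatX Φ c k = cstL Φ (L (T k)) + Tr k := by
        rw [← e2]; nth_rewrite 1 [e1]; abel
      rw [e5, e4]
      simp only [map_sub, map_add]
      abel
    show ‖T k - hatX Φ c k - (cstL Φ (q n) + Tr (cstL Φ (q m)) + Tr d1 + d2)‖ ≤ _
    rw [hkey2]
    have n1 : ‖cstL Φ (L (T k) - q n)‖ ≤ δ := (cstL_norm Φ _).trans hn
    have n2 : ‖Tr (cstL Φ (L k - q m))‖ ≤ ‖Tr‖ * δ :=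
      (Tr.le_opNorm _).trans (by gcongr; exact (cstL_norm Φ _).trans hm)
    have n3 : ‖Tr (k1 - d1)‖ ≤ ‖Tr‖ * δ := (Tr.le_opNorm _).trans (by gcongr)
    have n4 : ‖Tr (k0 - k1 - f)‖ ≤ ‖Tr‖ * δ := (Tr.le_opNorm _).trans (by gcongr)
    have n5 : 24 * (ε / 48) * ‖f‖ ≤ ε * ‖k‖ := by
      have : ‖f‖ ≤ 2 * ‖k‖ := hfn.trans hk0n
      nlinarith
    have n6 : 3 * δ + 3 * (‖Tr‖ * δ) = κ := by
      rw [hδd]; field_simp; ring
    refine le_trans (norm_add_le _ _) ?_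
    refine le_trans (add_le_add (norm_add_le _ _) le_rfl) ?_
    refine le_trans (add_le_add (add_le_add (norm_add_le _ _) le_rfl) le_rfl) ?_
    refine le_trans (add_le_add (add_le_add (add_le_add (norm_add_le _ _) le_rfl) le_rfl) le_rfl) ?_
    refine le_trans (add_le_add (add_le_add (add_le_add (add_le_add (norm_add_le _ _) le_rfl) le_rfl) le_rfl) le_rfl) ?_
    have n7 : ‖Tr f - g'‖ ≤ 24 * (ε / 48) * ‖f‖ + δ := hgn
    have n8 : ‖g' - d2‖ ≤ δ := hd2n
    linarith [n1, n2, n3, n4, n5, n6, n7, n8]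
  · have hne : ∃ b, b ∉ U := by
      by_contra hcon
      push Not at hcon
      have h1 : U = univ := eq_univ_of_forall hcon
      rw [h1] at hU
      have h2 : #(ℕ → Bool) ≤ ℵ₀ := by
        rw [← Cardinal.mk_univ]
        exact Cardinal.le_aleph0_iff_set_countable.2 hU
      have h3 : #(ℕ → Bool) = 𝔠 := by simp
      rw [h3] at h2
      exact absurd Cardinal.aleph0_lt_continuum (not_lt.2 h2)
    obtain ⟨b, hb⟩ := hne
    obtain ⟨F, hF⟩ := hc b hb
    obtain ⟨e, he, heF⟩ := (Φ.a_inf b).exists_notMem_finset F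
    refine ⟨e, fun h hh => PYS.norm_le_of_ystar _ _ hε.le fun u => ?_⟩
    have h1 := hF e he heF h hh u
    rw [ContinuousMap.sub_apply]
    linarith

end

end Pool.Agent.W689.PF
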