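import Pool.Agent.S04901

set_option autoImplicit false

open Set Function Topology Filter CantorScheme
open scoped Cardinal ENNReal

namespace Pool.Agent.W689.PF

variable {α C : Type}

/-- on `Q` one of the two coordinates lies in a countable set -/
def Sml (f g : α → C) (Q : Set α) : Prop :=
  ∃ U : Set C, U.Countable ∧ ∀ z ∈ Q, f z ∈ U ∨ g z ∈ U

theorem Sml.mono {f g : α → C} {Q Q' : Set α} (h : Sml f g Q') (hQ : Q ⊆ Q') : Sml f g Q := by
  obtain ⟨U, hU, H⟩ := h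
  exact ⟨U, hU, fun z hz => H z (hQ hz)⟩

theorem Sml.iUnion {ι : Type} [Countable ι] {f g : α → C} {Q : ι → Set α}
    (h : ∀ i, Sml f g (Q i)) : Sml f g (⋃ i, Q i) := by
  choose U hU H using h
  refine ⟨⋃ i, U i, countable_iUnion hU, fun z hz => ?_⟩
  obtain ⟨i, hi⟩ := mem_iUnion.1 hz
  rcases H i z hi with h | h
  · exact Or.inl (mem_iUnion.2 ⟨i, h⟩)
  · exact Or.inr (mem_iUnion.2 ⟨i, h⟩)

theorem Sml.union {f g : α → C} {Q Q' : Set α} (h : Sml f g Q) (h' : Sml f g Q') :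
    Sml f g (Q ∪ Q') := by
  obtain ⟨U, hU, H⟩ := h
  obtain ⟨U', hU', H'⟩ := h'
  refine ⟨U ∪ U', hU.union hU', fun z hz => ?_⟩
  rcases hz with hz | hz
  · exact (H z hz).imp Or.inl Or.inl
  · exact (H' z hz).imp Or.inr Or.inr

/-- closed nonempty sets all of whose nonempty relatively open parts are not small -/
def Hd [TopologicalSpace α] (f g : α → C) (Q : Set α) : Prop :=
  IsClosed Q ∧ Q.Nonempty ∧ ∀ O : Set α, IsOpen O → (O ∩ Q).Nonempty → ¬ Sml f g (O ∩ Q)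

theorem Hd.local' [MetricSpace α] [TopologicalSpace C] {f g : α → C}
    {Q : Set α} (hQ : Hd f g Q) {z : α} (hz : z ∈ Q) {V : Set α} (hV : V ∈ 𝓝 z) {ε : ℝ≥0∞}
    (hε : 0 < ε) : ∃ Q0, Hd f g Q0 ∧ Q0 ⊆ Q ∧ Metric.ediam Q0 ≤ ε ∧ Q0 ⊆ V := by
  obtain ⟨δ, hδ, hδV⟩ := Metric.nhds_basis_closedEBall.mem_iff.1 hV
  set r : ℝ≥0∞ := min δ (ε / 2) with hr
  have hr0 : 0 < r := lt_min hδ (ENNReal.half_pos hε.ne')
  have hzb : z ∈ Metric.eball z r := Metric.mem_eball_self hr0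
  have hsub : closure (Metric.eball z r ∩ Q) ⊆ Metric.closedEBall z r :=
    closure_minimal (inter_subset_left.trans Metric.eball_subset_closedEBall)
      Metric.isClosed_closedEBall
  refine ⟨closure (Metric.eball z r ∩ Q), ⟨isClosed_closure, ⟨z, subset_closure ⟨hzb, hz⟩⟩, ?_⟩,
    closure_minimal inter_subset_right hQ.1, ?_, ?_⟩
  · intro O hO hne hs
    obtain ⟨y, hyO, hy⟩ := hne
    obtain ⟨w, hwO, hw⟩ := mem_closure_iff.1 hy O hO hyO
    refine hQ.2.2 (O ∩ Metric.eball z r) (hO.inter Metric.isOpen_eball) ⟨w, ⟨hwO, hw.1⟩, hw.2⟩ ?_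
    refine hs.mono ?_
    rintro x ⟨⟨h1, h2⟩, h3⟩
    exact ⟨h1, subset_closure ⟨h2, h3⟩⟩
  · refine (Metric.ediam_mono hsub).trans ?_
    refine Metric.ediam_closedEBall_le.trans ?_
    calc 2 * r ≤ 2 * (ε / 2) := by gcongr; exact min_le_right _ _
      _ = ε := ENNReal.mul_div_cancel (by norm_num) (by norm_num)
  · refine (hsub.trans ?_).trans hδV
    exact Metric.closedEBall_subset_closedEBall (min_le_left _ _)

theorem Hd.split [MetricSpace α] [TopologicalSpace C] [T2Space C] {f g : α → C}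
    (hf : Continuous f) (hg : Continuous g)
    {Q : Set α} (hQ : Hd f g Q) {ε : ℝ≥0∞} (hε : 0 < ε) :
    ∃ Q0 Q1, (Hd f g Q0 ∧ Q0 ⊆ Q ∧ Metric.ediam Q0 ≤ ε) ∧ (Hd f g Q1 ∧ Q1 ⊆ Q ∧
      Metric.ediam Q1 ≤ ε) ∧ Disjoint (f '' Q0) (f '' Q1) ∧ Disjoint (g '' Q0) (g '' Q1) := by
  obtain ⟨z, hz⟩ := hQ.2.1
  obtain ⟨z', hz', h1, h2⟩ : ∃ z' ∈ Q, f z ≠ f z' ∧ g z ≠ g z' := by
    by_contra hcon
    push Not at hcon
    refine hQ.2.2 univ isOpen_univ ⟨z, mem_univ _, hz⟩ ⟨{f z, g z}, by simp, ?_⟩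
    rintro x ⟨-, hx⟩
    by_cases h : f z = f x
    · exact Or.inl (by simp [h])
    · exact Or.inr (by simp [hcon x hx h])
  obtain ⟨A, A', hA, hA', hzA, hzA', hAA⟩ := t2_separation h1
  obtain ⟨B, B', hB, hB', hzB, hzB', hBB⟩ := t2_separation h2
  have n1 : f ⁻¹' A ∩ g ⁻¹' B ∈ 𝓝 z :=
    inter_mem ((hA.preimage hf).mem_nhds hzA) ((hB.preimage hg).mem_nhds hzB)
  have n2 : f ⁻¹' A' ∩ g ⁻¹' B' ∈ 𝓝 z' :=
    inter_mem ((hA'.preimage hf).mem_nhds hzA') ((hB'.preimage hg).mem_nhds hzB')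
  obtain ⟨Q0, h0, h01, h02, h03⟩ := hQ.local' hz n1 hε
  obtain ⟨Q1, h1, h11, h12, h13⟩ := hQ.local' hz' n2 hε
  refine ⟨Q0, Q1, ⟨h0, h01, h02⟩, ⟨h1, h11, h12⟩, ?_, ?_⟩
  · refine hAA.mono ?_ ?_
    · rintro _ ⟨x, hx, rfl⟩; exact (h03 hx).1
    · rintro _ ⟨x, hx, rfl⟩; exact (h13 hx).1
  · refine hBB.mono ?_ ?_
    · rintro _ ⟨x, hx, rfl⟩; exact (h03 hx).2
    · rintro _ ⟨x, hx, rfl⟩; exact (h13 hx).2

theorem Hd.scheme [MetricSpace α] [CompleteSpace α] [TopologicalSpace C] [T2Space C] {f g : α → C}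
    (hf : Continuous f) (hg : Continuous g) {Q : Set α} (hQ : Hd f g Q) :
    ∃ p : (ℕ → Bool) → α, Injective (fun x => f (p x)) ∧ Injective (fun x => g (p x)) := by
  obtain ⟨u, -, upos', hu⟩ := exists_seq_strictAnti_tendsto' (zero_lt_one' ℝ≥0∞)
  have upos := fun n => (upos' n).1
  let P := Subtype fun E : Set α => Hd f g E
  choose C0 C1 h0 h1 hdisj hdisj' using
    fun {C : Set α} (hC : Hd f g C) {ε : ℝ≥0∞} (hε : 0 < ε) => Hd.split hf hg hC hε
  let DP : List Bool → P := fun l => by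
    induction l with
    | nil => exact ⟨Q, hQ⟩
    | cons a l ih =>
      cases a
      · exact ⟨C0 ih.property (upos (l.length + 1)), (h0 _ _).1⟩
      · exact ⟨C1 ih.property (upos (l.length + 1)), (h1 _ _).1⟩
  let D : List Bool → Set α := fun l => (DP l).val
  have hanti : ClosureAntitone D := by
    refine Antitone.closureAntitone ?_ fun l => (DP l).property.1
    intro l a
    cases a
    · exact (h0 _ _).2.1
    exact (h1 _ _).2.1
  have hdiam : VanishingDiam D := by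
    intro x
    apply tendsto_of_tendsto_of_tendsto_of_le_of_le' tendsto_const_nhds hu
    · simp
    rw [eventually_atTop]
    refine ⟨1, fun m (hm : 1 ≤ m) => ?_⟩
    rw [Nat.one_le_iff_ne_zero] at hm
    rcases Nat.exists_eq_succ_of_ne_zero hm with ⟨n, rfl⟩
    dsimp
    cases x n
    · convert! (h0 _ _).2.2
      rw [PiNat.res_length]
    convert! (h1 _ _).2.2
    rw [PiNat.res_length]
  have hdisjf : ∀ (l : List Bool) (a b : Bool), a ≠ b → Disjoint (f '' D (a :: l)) (f '' D (b :: l)) := by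
    rintro l (a | a) (b | b) hab <;> try contradiction
    · exact hdisj _ _
    exact (hdisj _ _).symm
  have hdisjg : ∀ (l : List Bool) (a b : Bool), a ≠ b → Disjoint (g '' D (a :: l)) (g '' D (b :: l)) := by
    rintro l (a | a) (b | b) hab <;> try contradiction
    · exact hdisj' _ _
    exact (hdisj' _ _).symm
  have hdom : ∀ {x : ℕ → Bool}, x ∈ (inducedMap D).1 := fun {x} => by
    rw [hanti.map_of_vanishingDiam hdiam fun l => (DP l).property.2.1]
    apply mem_univ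
  have key : ∀ q : α → C, (∀ (l : List Bool) (a b : Bool), a ≠ b →
      Disjoint (q '' D (a :: l)) (q '' D (b :: l))) →
      Injective (fun x => q ((inducedMap D).2 ⟨x, hdom⟩)) := by
    intro q hq x y hxy
    apply PiNat.res_injective
    ext n : 1
    induction n with
    | zero => simp
    | succ n ih =>
      simp only [PiNat.res_succ, List.cons.injEq]
      refine ⟨?_, ih⟩
      by_contra hne
      have h1 := hq (PiNat.res x n) _ _ hne
      rw [Set.disjoint_iff_forall_ne] at h1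
      refine h1 ⟨(inducedMap D).2 ⟨x, hdom⟩, ?_, rfl⟩ ⟨(inducedMap D).2 ⟨y, hdom⟩, ?_, rfl⟩ hxy
      · rw [← PiNat.res_succ]
        exact map_mem ⟨x, hdom⟩ (n + 1)
      · rw [ih, ← PiNat.res_succ]
        exact map_mem ⟨y, hdom⟩ (n + 1)
  exact ⟨fun x => (inducedMap D).2 ⟨x, hdom⟩, key f hdisjf, key g hdisjg⟩

/-- matching lemma -/
theorem matching (B : Set ((ℕ → Bool) × (ℕ → Bool))) (hB : MeasurableSet B)
    (U : Set (ℕ → Bool)) (hU : #U < 𝔠) (hBU : ∀ p ∈ B, p.1 ∈ U ∨ p.2 ∈ U) :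
    ∃ U' : Set (ℕ → Bool), U'.Countable ∧ ∀ p ∈ B, p.1 ∈ U' ∨ p.2 ∈ U' := by
  haveI hPol : PolishSpace ((ℕ → Bool) × (ℕ → Bool)) := by
    letI := TopologicalSpace.upgradeIsCompletelyMetrizable (ℕ → Bool)
    infer_instance
  have hAn := hB.analyticSet
  rw [MeasureTheory.AnalyticSet] at hAn
  rcases hAn with h0 | ⟨F, hF, hFB⟩
  · exact ⟨∅, countable_empty, fun p hp => by rw [h0] at hp; exact absurd hp (notMem_empty _)⟩
  let f : (ℕ → ℕ) → (ℕ → Bool) := fun z => (F z).1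
  let g : (ℕ → ℕ) → (ℕ → Bool) := fun z => (F z).2
  have hf : Continuous f := hF.fst
  have hg : Continuous g := hF.snd
  by_cases hs : Sml f g univ
  · obtain ⟨U', hU', H⟩ := hs
    refine ⟨U', hU', fun p hp => ?_⟩
    rw [← hFB] at hp
    obtain ⟨z, rfl⟩ := hp
    exact H z (mem_univ _)
  exfalso
  letI := TopologicalSpace.upgradeIsCompletelyMetrizable (ℕ → ℕ)
  let b := TopologicalSpace.countableBasis (ℕ → ℕ)
  have hbc : b.Countable := TopologicalSpace.countable_countableBasis _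
  have hb : TopologicalSpace.IsTopologicalBasis b := TopologicalSpace.isBasis_countableBasis _
  let W : Set (ℕ → ℕ) := ⋃ O : {O : b // Sml f g (O : Set (ℕ → ℕ))}, ((O : b) : Set (ℕ → ℕ))
  haveI : Countable b := hbc.to_subtype
  have hWs : Sml f g W := Sml.iUnion fun O => O.2
  have hWo : IsOpen W := isOpen_iUnion fun O => hb.isOpen O.1.2
  have hQ : Hd f g Wᶜ := by
    refine ⟨hWo.isClosed_compl, ?_, ?_⟩
    · rw [nonempty_compl]
      intro h
      rw [h] at hWs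
      exact hs hWs
    · rintro O hO ⟨z, hzO, hzW⟩ hsm
      obtain ⟨V, hV, hzV, hVO⟩ := hb.exists_subset_of_mem_open hzO hO
      apply hzW
      have : Sml f g V := by
        refine (hsm.union hWs).mono fun x hx => ?_
        by_cases hxW : x ∈ W
        · exact Or.inr hxW
        · exact Or.inl ⟨hVO hx, hxW⟩
      exact mem_iUnion.2 ⟨⟨⟨V, hV⟩, this⟩, hzV⟩
  obtain ⟨p, hp1, hp2⟩ := Hd.scheme hf hg hQ
  have c1 : #{x | f (p x) ∈ U} ≤ #U :=
    Cardinal.mk_le_of_injective (f := fun x : {x | f (p x) ∈ U} => (⟨f (p x), x.2⟩ : U))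
      (fun x y hxy => Subtype.ext (hp1 (congrArg Subtype.val hxy)))
  have c2 : #{x | g (p x) ∈ U} ≤ #U :=
    Cardinal.mk_le_of_injective (f := fun x : {x | g (p x) ∈ U} => (⟨g (p x), x.2⟩ : U))
      (fun x y hxy => Subtype.ext (hp2 (congrArg Subtype.val hxy)))
  have c3 : ({x | f (p x) ∈ U} ∪ {x | g (p x) ∈ U} : Set (ℕ → Bool)) = univ := by
    rw [eq_univ_iff_forall]
    intro x
    exact hBU (F (p x)) (hFB ▸ mem_range_self _)
  have c4 : #(univ : Set (ℕ → Bool)) < 𝔠 := by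
    rw [← c3]
    refine (Cardinal.mk_union_le _ _).trans_lt ?_
    exact Cardinal.add_lt_of_lt Cardinal.aleph0_le_continuum (c1.trans_lt hU) (c2.trans_lt hU)
  rw [Cardinal.mk_univ] at c4
  simp at c4

end Pool.Agent.W689.PF
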